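import Mathlib

set_option autoImplicit false
set_option linter.unusedSectionVars false
open Finset

namespace Pool.Agent.Results.MP_2634a8_co.Deficiency

variable {V : Type} [Fintype V] [DecidableEq V]

/-- out-neighbours -/
def outN (E : Finset (V × V)) (v : V) : Finset V := univ.filter fun y => (v, y) ∈ E
/-- in-neighbours -/
def inN (E : Finset (V × V)) (v : V) : Finset V := univ.filter fun x => (x, v) ∈ E

theorem mem_outN {E : Finset (V × V)} {v y : V} : y ∈ outN E v ↔ (v, y) ∈ E := by simp [outN]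
theorem mem_inN {E : Finset (V × V)} {v x : V} : x ∈ inN E v ↔ (x, v) ∈ E := by simp [inN]

/-- balanced set of arcs -/
def Bal (A : Finset (V × V)) : Prop := ∀ f : V → ℤ, ∑ a ∈ A, (f a.1 - f a.2) = 0

/-- no loops -/
def Loopless (A : Finset (V × V)) : Prop := ∀ a ∈ A, a.1 ≠ a.2

/-- `c` pairwise disjoint nonempty balanced subsets -/
def Pack (E : Finset (V × V)) (c : ℕ) : Prop :=
  ∃ (ι : Type) (_ : Fintype ι) (P : ι → Finset (V × V)), c ≤ Fintype.card ι ∧
    (∀ i, (P i).Nonempty ∧ P i ⊆ E ∧ Bal (P i)) ∧ ∀ i j, i ≠ j → Disjoint (P i) (P j)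

theorem card_outN (E : Finset (V × V)) (v : V) : (outN E v).card = (E.filter fun a => a.1 = v).card := by
  refine Finset.card_bij (fun y _ => (v, y)) ?_ ?_ ?_
  · intro y hy; simpa using mem_outN.1 hy
  · intro a _ b _ h; simpa using h
  · rintro ⟨a, b⟩ h
    simp only [mem_filter] at h
    obtain ⟨h1, rfl⟩ := h
    exact ⟨b, mem_outN.2 h1, rfl⟩

theorem card_inN (E : Finset (V × V)) (v : V) : (inN E v).card = (E.filter fun a => a.2 = v).card := by
  refine Finset.card_bij (fun y _ => (y, v)) ?_ ?_ ?_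
  · intro y hy; simpa using mem_inN.1 hy
  · intro a _ b _ h; simpa using h
  · rintro ⟨a, b⟩ h
    simp only [mem_filter] at h
    obtain ⟨h1, rfl⟩ := h
    exact ⟨a, mem_inN.2 h1, rfl⟩

theorem bal_iff (E : Finset (V × V)) : Bal E ↔ ∀ v, (inN E v).card = (outN E v).card := by
  have key : ∀ f : V → ℤ, ∑ a ∈ E, (f a.1 - f a.2) =
      ∑ v, f v * ((outN E v).card - (inN E v).card : ℤ) := by
    intro f
    have h1 : ∑ a ∈ E, f a.1 = ∑ v, f v * ((outN E v).card : ℤ) := by
      rw [← Finset.sum_fiberwise_of_maps_to (s := E) (t := univ) (g := fun a => a.1) (fun _ _ => mem_univ _)]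
      refine Finset.sum_congr rfl fun v _ => ?_
      rw [card_outN, Finset.sum_congr rfl (g := fun _ => f v) (fun a ha => by rw [(mem_filter.1 ha).2])]
      simp [mul_comm]
    have h2 : ∑ a ∈ E, f a.2 = ∑ v, f v * ((inN E v).card : ℤ) := by
      rw [← Finset.sum_fiberwise_of_maps_to (s := E) (t := univ) (g := fun a => a.2) (fun _ _ => mem_univ _)]
      refine Finset.sum_congr rfl fun v _ => ?_
      rw [card_inN, Finset.sum_congr rfl (g := fun _ => f v) (fun a ha => by rw [(mem_filter.1 ha).2])]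
      simp [mul_comm]
    rw [Finset.sum_sub_distrib, h1, h2, ← Finset.sum_sub_distrib]
    exact Finset.sum_congr rfl fun v _ => by ring
  constructor
  · intro h v
    have h0 := (key (fun w => if w = v then 1 else 0)).symm.trans
      (h (fun w => if w = v then 1 else 0))
    simp only [ite_mul, one_mul, zero_mul, Finset.sum_ite_eq', mem_univ, if_true] at h0
    omega
  · intro h f
    rw [key]
    refine Finset.sum_eq_zero fun v _ => ?_
    rw [h v]; simp

/-! ### Hall -/

/-- blocked vertex -/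
def Blocked (E : Finset (V × V)) (v : V) : Prop :=
  ∃ X Y : Finset V, X ⊆ inN E v ∧ Y ⊆ outN E v ∧ (∀ x ∈ X, ∀ y ∈ Y, x ≠ y ∧ (x, y) ∈ E) ∧
    (outN E v).card < X.card + Y.card

theorem exists_matching {E : Finset (V × V)} (hb : Bal E) {v : V} (h : ¬ Blocked E v) :
    ∃ m m' : V → V, (∀ x ∈ inN E v, m x ∈ outN E v ∧ m' (m x) = x ∧ (m x = x ∨ (x, m x) ∉ E)) ∧
      (∀ y ∈ outN E v, m' y ∈ inN E v ∧ m (m' y) = y) := by
  classical
  set t : {x // x ∈ inN E v} → Finset V := fun x => (outN E v).filter fun y => y = x.1 ∨ (x.1, y) ∉ E with ht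
  have hall : ∀ s : Finset {x // x ∈ inN E v}, s.card ≤ (s.biUnion t).card := by
    intro s
    by_contra hs
    push Not at hs
    apply h
    refine ⟨s.image Subtype.val, (outN E v) \ (s.biUnion t), ?_, ?_, ?_, ?_⟩
    · intro x hx
      obtain ⟨⟨y, hy⟩, _, rfl⟩ := Finset.mem_image.1 hx
      exact hy
    · exact Finset.sdiff_subset
    · intro x hx y hy
      obtain ⟨⟨z, hz⟩, hzs, rfl⟩ := Finset.mem_image.1 hx
      simp only [mem_sdiff, mem_biUnion, not_exists, not_and] at hy
      have := hy.2 ⟨z, hz⟩ hzs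
      simp only [ht, mem_filter, not_and, not_or, not_not] at this
      have h2 := this hy.1
      exact ⟨fun h => h2.1 h.symm, h2.2⟩
    · rw [Finset.card_image_of_injective _ Subtype.val_injective]
      have h1 : s.biUnion t ⊆ outN E v := by
        intro y hy
        simp only [mem_biUnion, ht, mem_filter] at hy
        obtain ⟨_, _, h, _⟩ := hy
        exact h
      have := Finset.card_sdiff_add_card_eq_card h1
      omega
  obtain ⟨f, hfi, hft⟩ := (Finset.all_card_le_biUnion_card_iff_exists_injective t).1 hall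
  have hcard := (bal_iff E).1 hb v
  set m : V → V := fun x => if hx : x ∈ inN E v then f ⟨x, hx⟩ else x with hm
  have hmx : ∀ x (hx : x ∈ inN E v), m x = f ⟨x, hx⟩ := fun x hx => by simp [hm, hx]
  have hmaps : ∀ x ∈ inN E v, m x ∈ outN E v := by
    intro x hx
    rw [hmx x hx]
    exact (mem_filter.1 (hft ⟨x, hx⟩)).1
  have hinj : ∀ x ∈ inN E v, ∀ y ∈ inN E v, m x = m y → x = y := by
    intro x hx y hy hxy
    rw [hmx x hx, hmx y hy] at hxy
    have := hfi hxy
    simpa using this
  have hsurj : ∀ y ∈ outN E v, ∃ x ∈ inN E v, m x = y := by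
    intro y hy
    have := Finset.surj_on_of_inj_on_of_card_le (s := inN E v) (t := outN E v) (fun x _ => m x)
      (fun x hx => hmaps x hx) (fun x y hx hy h => hinj x hx y hy h) (by rw [hcard]) y hy
    obtain ⟨x, hx, h⟩ := this
    exact ⟨x, hx, h.symm⟩
  choose! m' hm' using hsurj
  refine ⟨m, m', ?_, ?_⟩
  · intro x hx
    refine ⟨hmaps x hx, ?_, ?_⟩
    · have h1 := hm' (m x) (hmaps x hx)
      exact hinj _ h1.1 _ hx h1.2
    · have := (mem_filter.1 (hft ⟨x, hx⟩)).2
      rw [hmx x hx]
      exact this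
  · intro y hy
    exact hm' y hy

/-! ### elimination of a vertex -/

section elim

variable (E : Finset (V × V)) (v : V) (m m' : V → V)

/-- arcs after splitting off `v`, loops kept -/
def elim1 : Finset (V × V) :=
  (E.filter fun a => a.1 ≠ v ∧ a.2 ≠ v) ∪ (inN E v).image fun x => (x, m x)

/-- arcs after splitting off `v`, loops removed -/
def elim2 : Finset (V × V) := (elim1 E v m).filter fun a => a.1 ≠ a.2

/-- the arc of the new digraph through which an old arc runs -/
def rho (a : V × V) : V × V := if a.2 = v then (a.1, m a.1) else if a.1 = v then (m' a.2, a.2) else a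

end elim

structure MData (E : Finset (V × V)) (v : V) (m m' : V → V) : Prop where
  loopless : Loopless E
  h1 : ∀ x ∈ inN E v, m x ∈ outN E v ∧ m' (m x) = x ∧ (m x = x ∨ (x, m x) ∉ E)
  h2 : ∀ y ∈ outN E v, m' y ∈ inN E v ∧ m (m' y) = y

theorem MData.notMem {E : Finset (V × V)} {v : V} {m m' : V → V} (D : MData E v m m') {x : V}
    (hx : x ∈ inN E v) : (x, m x) ∉ E := by
  rcases (D.h1 x hx).2.2 with h | h
  · intro h3
    exact D.loopless _ h3 h.symm
  · exact h

theorem MData.ne {E : Finset (V × V)} {v : V} {m m' : V → V} (D : MData E v m m') {x : V}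
    (hx : x ∈ inN E v) : x ≠ v := D.loopless _ (mem_inN.1 hx)

theorem MData.ne' {E : Finset (V × V)} {v : V} {m m' : V → V} (D : MData E v m m') {y : V}
    (hy : y ∈ outN E v) : y ≠ v := fun h => D.loopless _ (mem_outN.1 hy) h.symm

theorem rho_mem {E : Finset (V × V)} {v : V} {m m' : V → V} (D : MData E v m m') {a : V × V}
    (ha : a ∈ E) : rho v m m' a ∈ elim1 E v m := by
  obtain ⟨x, y⟩ := a
  unfold rho elim1
  simp only [mem_union, mem_filter, mem_image]
  split_ifs with h1 h2
  · right
    subst h1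
    exact ⟨x, mem_inN.2 ha, rfl⟩
  · right
    subst h2
    have := D.h2 y (mem_outN.2 ha)
    exact ⟨m' y, this.1, by rw [this.2]⟩
  · left; exact ⟨ha, h2, h1⟩

theorem fiber_new {E : Finset (V × V)} {v : V} {m m' : V → V} (D : MData E v m m') {x : V}
    (hx : x ∈ inN E v) : (E.filter fun e => rho v m m' e = (x, m x)) = {(x, v), (v, m x)} := by
  ext ⟨a, b⟩
  simp only [mem_filter, mem_insert, mem_singleton, Prod.mk.injEq]
  constructor
  · rintro ⟨hab, hr⟩
    unfold rho at hr
    simp only at hr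
    split_ifs at hr with h1 h2
    · simp only [Prod.mk.injEq] at hr
      left; exact ⟨hr.1, h1⟩
    · simp only [Prod.mk.injEq] at hr
      right; exact ⟨h2, hr.2⟩
    · simp only [Prod.mk.injEq] at hr
      exfalso
      rw [hr.1, hr.2] at hab
      exact D.notMem hx hab
  · rintro (⟨rfl, rfl⟩ | ⟨rfl, rfl⟩)
    · refine ⟨mem_inN.1 hx, ?_⟩
      simp [rho]
    · refine ⟨mem_outN.1 (D.h1 x hx).1, ?_⟩
      have h3 := D.ne' (D.h1 x hx).1
      simp [rho, h3, (D.h1 x hx).2.1]



theorem fiber_old {E : Finset (V × V)} {v : V} {m m' : V → V} (D : MData E v m m') {a : V × V}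
    (ha : a ∈ E) (h1 : a.1 ≠ v) (h2 : a.2 ≠ v) :
    (E.filter fun e => rho v m m' e = a) = {a} := by
  ext ⟨b, c⟩
  simp only [mem_filter, mem_singleton]
  constructor
  · rintro ⟨hbc, hr⟩
    unfold rho at hr
    simp only at hr
    split_ifs at hr with h3 h4
    · exfalso
      subst h3
      apply D.notMem (mem_inN.2 hbc)
      rw [hr]; exact ha
    · exfalso
      subst h4
      have h5 := D.h2 c (mem_outN.2 hbc)
      apply D.notMem h5.1
      rw [h5.2, hr]; exact ha
    · exact hr
  · rintro rfl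
    refine ⟨ha, ?_⟩
    unfold rho
    simp only at h1 h2
    simp [h1, h2]

theorem lift_sum {E : Finset (V × V)} {v : V} {m m' : V → V} (D : MData E v m m')
    {A : Finset (V × V)} (hA : A ⊆ elim1 E v m) (f : V → ℤ) :
    ∑ e ∈ E.filter (fun e => rho v m m' e ∈ A), (f e.1 - f e.2) = ∑ a ∈ A, (f a.1 - f a.2) := by
  rw [← Finset.sum_fiberwise_of_maps_to (s := E.filter (fun e => rho v m m' e ∈ A)) (t := A)
    (g := rho v m m') (fun e he => (mem_filter.1 he).2)]
  refine Finset.sum_congr rfl fun a ha => ?_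
  have hfil : ((E.filter (fun e => rho v m m' e ∈ A)).filter fun e => rho v m m' e = a) =
      E.filter fun e => rho v m m' e = a := by
    ext e
    simp only [mem_filter]
    constructor
    · rintro ⟨⟨h1, _⟩, h3⟩; exact ⟨h1, h3⟩
    · rintro ⟨h1, h3⟩; exact ⟨⟨h1, by rw [h3]; exact ha⟩, h3⟩
  rw [hfil]
  have h1 := hA ha
  unfold elim1 at h1
  simp only [mem_union, mem_filter, mem_image] at h1
  rcases h1 with ⟨h1, h2, h3⟩ | ⟨x, hx, rfl⟩
  · rw [fiber_old D h1 h2 h3, Finset.sum_singleton]
  · rw [fiber_new D hx, Finset.sum_pair]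
    · simp only; ring
    · intro h
      have := congrArg Prod.fst h
      simp only at this
      exact D.ne hx this

theorem rho_surj {E : Finset (V × V)} {v : V} {m m' : V → V} (D : MData E v m m') {a : V × V}
    (ha : a ∈ elim1 E v m) : ∃ e ∈ E, rho v m m' e = a := by
  unfold elim1 at ha
  simp only [mem_union, mem_filter, mem_image] at ha
  rcases ha with ⟨h1, h2, h3⟩ | ⟨x, hx, rfl⟩
  · have := fiber_old D h1 h2 h3
    have h4 : a ∈ (E.filter fun e => rho v m m' e = a) := by rw [this]; simp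
    exact ⟨a, (mem_filter.1 h4).1, (mem_filter.1 h4).2⟩
  · have := fiber_new D hx
    have h4 : (x, v) ∈ (E.filter fun e => rho v m m' e = (x, m x)) := by rw [this]; simp
    exact ⟨_, (mem_filter.1 h4).1, (mem_filter.1 h4).2⟩

theorem pack_lift {E : Finset (V × V)} {v : V} {m m' : V → V} (D : MData E v m m') {c : ℕ}
    (h : Pack (elim1 E v m) c) : Pack E c := by
  obtain ⟨ι, hι, P, hc, hP, hd⟩ := h
  refine ⟨ι, hι, fun i => E.filter (fun e => rho v m m' e ∈ P i), hc, ?_, ?_⟩
  · intro i
    refine ⟨?_, Finset.filter_subset _ _, ?_⟩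
    · obtain ⟨a, ha⟩ := (hP i).1
      obtain ⟨e, he, hea⟩ := rho_surj D ((hP i).2.1 ha)
      exact ⟨e, mem_filter.2 ⟨he, by rw [hea]; exact ha⟩⟩
    · intro f
      rw [lift_sum D (hP i).2.1 f]
      exact (hP i).2.2 f
  · intro i j hij
    rw [Finset.disjoint_left]
    intro e he he'
    exact Finset.disjoint_left.1 (hd i j hij) (mem_filter.1 he).2 (mem_filter.1 he').2

theorem pack_loops {F : Finset (V × V)} {c : ℕ} (h : Pack (F.filter fun a => a.1 ≠ a.2) c) :
    Pack F (c + (F.filter fun a => ¬ (a.1 ≠ a.2)).card) := by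
  obtain ⟨ι, hι, P, hc, hP, hd⟩ := h
  refine ⟨ι ⊕ {a // a ∈ F.filter fun a => ¬ (a.1 ≠ a.2)}, inferInstance,
    Sum.elim P (fun a => {a.1}), ?_, ?_, ?_⟩
  · rw [Fintype.card_sum, Fintype.card_coe]; omega
  · rintro (i | ⟨a, ha⟩)
    · exact ⟨(hP i).1, (hP i).2.1.trans (Finset.filter_subset _ _), (hP i).2.2⟩
    · refine ⟨by simp, ?_, ?_⟩
      · simp only [Sum.elim_inr, singleton_subset_iff]
        exact (mem_filter.1 ha).1
      · intro f
        have h1 := (mem_filter.1 ha).2
        push Not at h1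
        simp [h1]
  · rintro (i | ⟨a, ha⟩) (j | ⟨b, hb⟩) hij
    · exact hd i j (fun h => hij (by rw [h]))
    · simp only [Sum.elim_inl, Sum.elim_inr, disjoint_singleton_right]
      intro h1
      exact (mem_filter.1 hb).2 (mem_filter.1 ((hP i).2.1 h1)).2
    · simp only [Sum.elim_inl, Sum.elim_inr, disjoint_singleton_left]
      intro h1
      exact (mem_filter.1 ha).2 (mem_filter.1 ((hP j).2.1 h1)).2
    · simp only [Sum.elim_inr, disjoint_singleton_left, mem_singleton]
      intro h
      apply hij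
      simp only [Sum.inr.injEq, Subtype.mk.injEq]
      exact h

theorem card_elim1 {E : Finset (V × V)} {v : V} {m m' : V → V} (D : MData E v m m') :
    (elim1 E v m).card + (outN E v).card = E.card := by
  have hdisj : Disjoint (E.filter fun a => a.1 ≠ v ∧ a.2 ≠ v) ((inN E v).image fun x => (x, m x)) := by
    rw [Finset.disjoint_left]
    intro a ha ha'
    obtain ⟨x, hx, rfl⟩ := mem_image.1 ha'
    exact D.notMem hx (mem_filter.1 ha).1
  unfold elim1
  rw [Finset.card_union_of_disjoint hdisj, Finset.card_image_of_injective _ (fun a b h => by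
    simpa using congrArg Prod.fst h), card_inN, card_outN]
  have h1 := Finset.card_filter_add_card_filter_not (s := E) (fun a => a.1 ≠ v ∧ a.2 ≠ v)
  have h2 : (E.filter fun a => ¬ (a.1 ≠ v ∧ a.2 ≠ v)) = (E.filter fun a => a.2 = v) ∪ (E.filter fun a => a.1 = v) := by
    ext a
    simp only [mem_filter, mem_union]
    tauto
  have h3 : Disjoint (E.filter fun a => a.2 = v) (E.filter fun a => a.1 = v) := by
    rw [Finset.disjoint_left]
    intro a ha ha'
    apply D.loopless a (mem_filter.1 ha).1
    rw [(mem_filter.1 ha).2, (mem_filter.1 ha').2]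
  rw [h2, Finset.card_union_of_disjoint h3] at h1
  omega

theorem bal_elim2 {E : Finset (V × V)} {v : V} {m m' : V → V} (D : MData E v m m') (hb : Bal E) :
    Bal (elim2 E v m) := by
  intro f
  unfold elim2
  rw [Finset.sum_filter_of_ne]
  · rw [← lift_sum D (Finset.Subset.refl _) f]
    have : (E.filter fun e => rho v m m' e ∈ elim1 E v m) = E := by
      rw [Finset.filter_eq_self]
      intro a ha
      exact rho_mem D ha
    rw [this]
    exact hb f
  · intro a _ h1 h2
    apply h1
    rw [h2]; ring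

theorem loopless_elim2 (E : Finset (V × V)) (v : V) (m : V → V) : Loopless (elim2 E v m) :=
  fun _ ha => (mem_filter.1 ha).2

theorem elim2_support {E : Finset (V × V)} {v : V} {m m' : V → V} (D : MData E v m m')
    {S : Finset V} (hS : ∀ a ∈ E, a.1 ∈ S ∧ a.2 ∈ S) :
    ∀ a ∈ elim2 E v m, a.1 ∈ S.erase v ∧ a.2 ∈ S.erase v := by
  intro a ha
  have ha := (mem_filter.1 ha).1
  unfold elim1 at ha
  simp only [mem_union, mem_filter, mem_image] at ha
  rcases ha with ⟨h1, h2, h3⟩ | ⟨x, hx, rfl⟩
  · exact ⟨mem_erase.2 ⟨h2, (hS a h1).1⟩, mem_erase.2 ⟨h3, (hS a h1).2⟩⟩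
  · exact ⟨mem_erase.2 ⟨D.ne hx, (hS _ (mem_inN.1 hx)).1⟩,
      mem_erase.2 ⟨D.ne' (D.h1 x hx).1, (hS _ (mem_outN.1 (D.h1 x hx).1)).2⟩⟩

theorem deg_elim2 {E : Finset (V × V)} {v : V} {m m' : V → V} (D : MData E v m m') (w : V) :
    (outN (elim2 E v m) w).card ≤ (outN E w).card := by
  classical
  refine Finset.card_le_card_of_injOn (fun y => if (w, y) ∈ E then y else v) ?_ ?_
  · intro y hy
    have hy := (mem_filter.1 (mem_outN.1 hy)).1
    unfold elim1 at hy
    simp only [mem_union, mem_filter, mem_image, Prod.mk.injEq] at hy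
    rcases hy with ⟨h1, h2, h3⟩ | ⟨x, hx, rfl, rfl⟩
    · simp only [h1, if_true]
      exact mem_outN.2 h1
    · simp only [D.notMem hx, if_false]
      exact mem_outN.2 (mem_inN.1 hx)
  · intro y hy z hz hyz
    have hy' := (mem_filter.1 (mem_outN.1 hy)).1
    have hz' := (mem_filter.1 (mem_outN.1 hz)).1
    unfold elim1 at hy' hz'
    simp only [mem_union, mem_filter, mem_image, Prod.mk.injEq] at hy' hz'
    simp only at hyz
    rcases hy' with ⟨h1, h2, h3⟩ | ⟨x, hx, rfl, rfl⟩
    · rcases hz' with ⟨h1', h2', h3'⟩ | ⟨x, hx, rfl, rfl⟩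
      · simpa [h1, h1'] using hyz
      · simp only [h1, D.notMem hx, if_true, if_false] at hyz
        exact absurd hyz h3
    · rcases hz' with ⟨h1', h2', h3'⟩ | ⟨x', hx', h4, rfl⟩
      · simp only [h1', D.notMem hx, if_true, if_false] at hyz
        exact absurd hyz.symm h3'
      · rw [h4]


/-! ### reversal -/

def rev (E : Finset (V × V)) : Finset (V × V) := univ.filter fun a => (a.2, a.1) ∈ E

theorem mem_rev {E : Finset (V × V)} {a b : V} : (a, b) ∈ rev E ↔ (b, a) ∈ E := by simp [rev]

theorem outN_rev (E : Finset (V × V)) (v : V) : outN (rev E) v = inN E v := by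
  ext w; rw [mem_outN, mem_inN, mem_rev]

theorem inN_rev (E : Finset (V × V)) (v : V) : inN (rev E) v = outN E v := by
  ext w; rw [mem_outN, mem_inN, mem_rev]

theorem bal_rev {E : Finset (V × V)} (h : Bal E) : Bal (rev E) := by
  rw [bal_iff] at h ⊢
  intro v
  rw [inN_rev, outN_rev, h]

theorem loopless_rev {E : Finset (V × V)} (h : Loopless E) : Loopless (rev E) := by
  rintro ⟨a, b⟩ hab h2
  exact h _ (mem_rev.1 hab) h2.symm

theorem blocked_rev {E : Finset (V × V)} (hb : Bal E) {v : V} (h : Blocked E v) :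
    Blocked (rev E) v := by
  obtain ⟨X, Y, hX, hY, hXY, hc⟩ := h
  refine ⟨Y, X, ?_, ?_, ?_, ?_⟩
  · rw [inN_rev]; exact hY
  · rw [outN_rev]; exact hX
  · intro y hy x hx
    exact ⟨(hXY x hx y hy).1.symm, mem_rev.2 (hXY x hx y hy).2⟩
  · rw [outN_rev, (bal_iff E).1 hb v]; omega

/-! ### small degree -/

theorem block_bounds {E : Finset (V × V)} (hl : Loopless E) (hb : Bal E) {D : ℕ}
    (hd : ∀ v, (outN E v).card ≤ D) {v : V} {X Y : Finset V} (hX : X ⊆ inN E v) (hY : Y ⊆ outN E v)
    (hXY : ∀ x ∈ X, ∀ y ∈ Y, x ≠ y ∧ (x, y) ∈ E) (hc : (outN E v).card < X.card + Y.card) :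
    X.card + 1 ≤ D ∧ Y.card + 1 ≤ D := by
  have hYc := Finset.card_le_card hY
  have hXc := Finset.card_le_card hX
  rw [(bal_iff E).1 hb v] at hXc
  have hXne : X.Nonempty := by
    rw [← Finset.card_pos]; omega
  have hYne : Y.Nonempty := by
    rw [← Finset.card_pos]; omega
  constructor
  · obtain ⟨y, hy⟩ := hYne
    have hsub : insert v X ⊆ inN E y := by
      intro x hx
      rcases mem_insert.1 hx with rfl | hx
      · exact mem_inN.2 (mem_outN.1 (hY hy))
      · exact mem_inN.2 (hXY x hx y hy).2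
    have h1 := Finset.card_le_card hsub
    rw [Finset.card_insert_of_notMem (fun h => hl _ (mem_inN.1 (hX h)) rfl),
      (bal_iff E).1 hb y] at h1
    exact h1.trans (hd y)
  · obtain ⟨x, hx⟩ := hXne
    have hsub : insert v Y ⊆ outN E x := by
      intro y hy
      rcases mem_insert.1 hy with rfl | hy
      · exact mem_outN.2 (mem_inN.1 (hX hx))
      · exact mem_outN.2 (hXY x hx y hy).2
    have h1 := Finset.card_le_card hsub
    rw [Finset.card_insert_of_notMem (fun h => hl _ (mem_outN.1 (hY h)) rfl)] at h1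
    exact h1.trans (hd x)

theorem case_Y {E : Finset (V × V)} (hl : Loopless E) (hb : Bal E) {D : ℕ} (hD : D ≤ 4)
    (hd : ∀ v, (outN E v).card ≤ D) (hbl : ∀ v, (outN E v).Nonempty → Blocked E v) {v : V}
    (hv : (outN E v).card = D) {X Y : Finset V} (hX : X ⊆ inN E v) (hY : Y ⊆ outN E v)
    (hXY : ∀ x ∈ X, ∀ y ∈ Y, x ≠ y ∧ (x, y) ∈ E) (hc : D < X.card + Y.card)
    (hYc : Y.card + 1 = D) : False := by
  have hvY : v ∉ Y := fun h => hl _ (mem_outN.1 (hY h)) rfl
  have hvX : v ∉ X := fun h => hl _ (mem_inN.1 (hX h)) rfl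
  have hX2 : 2 ≤ X.card := by omega
  have hout : ∀ x ∈ X, outN E x = insert v Y := by
    intro x hx
    symm
    apply Finset.eq_of_subset_of_card_le
    · intro y hy
      rcases mem_insert.1 hy with rfl | hy
      · exact mem_outN.2 (mem_inN.1 (hX hx))
      · exact mem_outN.2 (hXY x hx y hy).2
    · rw [Finset.card_insert_of_notMem hvY]
      exact (hd x).trans hYc.ge
  have hback : ∀ x ∈ X, x ∈ outN E v := by
    intro x hx
    have hdx : (outN E x).card = D := by
      rw [hout x hx, Finset.card_insert_of_notMem hvY, hYc]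
    have hne : (outN E x).Nonempty := ⟨v, by rw [hout x hx]; simp⟩
    obtain ⟨X', Y', hX', hY', hXY', hc'⟩ := hbl x hne
    obtain ⟨b1, b2⟩ := block_bounds hl hb hd hX' hY' hXY' hc'
    rw [hdx] at hc'
    have hX'2 : 2 ≤ X'.card := by omega
    have hY'2 : 1 < Y'.card := by omega
    obtain ⟨y, hy, hyv⟩ := Finset.exists_mem_ne hY'2 v
    have hyY : y ∈ Y := by
      have h1 := hY' hy
      rw [hout x hx] at h1
      exact (mem_insert.1 h1).resolve_left hyv
    have hdisj : ∀ x' ∈ X', x' ∉ X := by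
      intro x' hx' hx'X
      have h1 : x ∈ outN E x' := mem_outN.2 (mem_inN.1 (hX' hx'))
      rw [hout x' hx'X] at h1
      rcases mem_insert.1 h1 with h1 | h1
      · exact hvX (h1 ▸ hx)
      · exact (hXY x hx x h1).1 rfl
    by_contra hcon
    have hvX' : v ∉ X' := fun h => hcon (mem_outN.2 (mem_inN.1 (hX' h)))
    have hsub : insert v (X ∪ X') ⊆ inN E y := by
      intro z hz
      rcases mem_insert.1 hz with rfl | hz
      · exact mem_inN.2 (mem_outN.1 (hY hyY))
      · rcases mem_union.1 hz with hz | hz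
        · exact mem_inN.2 (hXY z hz y hyY).2
        · exact mem_inN.2 (hXY' z hz y hy).2
    have h1 := Finset.card_le_card hsub
    rw [Finset.card_insert_of_notMem (by
      rw [mem_union]; rintro (h | h); exacts [hvX h, hvX' h]),
      Finset.card_union_of_disjoint (Finset.disjoint_right.2 hdisj), (bal_iff E).1 hb y] at h1
    have := hd y
    omega
  have hsub : X ∪ Y ⊆ outN E v := Finset.union_subset (fun x hx => hback x hx) hY
  have hdj : Disjoint X Y := by
    rw [Finset.disjoint_left]
    intro x hx hxY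
    exact (hXY x hx x hxY).1 rfl
  have h1 := Finset.card_le_card hsub
  rw [Finset.card_union_of_disjoint hdj] at h1
  omega

theorem exists_unblocked {E : Finset (V × V)} (hl : Loopless E) (hb : Bal E) (hne : E.Nonempty)
    (hd : ∀ v, (outN E v).card ≤ 4) : ∃ v, (outN E v).Nonempty ∧ ¬ Blocked E v := by
  by_contra hcon
  push Not at hcon
  obtain ⟨⟨a, b⟩, hab⟩ := hne
  have : Nonempty V := ⟨a⟩
  obtain ⟨v, -, hv⟩ := Finset.exists_max_image (univ : Finset V) (fun v => (outN E v).card)
    ⟨a, mem_univ _⟩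
  have hapos : 0 < (outN E a).card := Finset.card_pos.2 ⟨b, mem_outN.2 hab⟩
  have hvpos : 0 < (outN E v).card := lt_of_lt_of_le hapos (hv a (mem_univ _))
  obtain ⟨X, Y, hX, hY, hXY, hc⟩ := hcon v (Finset.card_pos.1 hvpos)
  have hdm : ∀ w, (outN E w).card ≤ (outN E v).card := fun w => hv w (mem_univ _)
  obtain ⟨b1, b2⟩ := block_bounds hl hb hdm hX hY hXY hc
  have h4 := hd v
  have hor : Y.card + 1 = (outN E v).card ∨ X.card + 1 = (outN E v).card := by omega
  rcases hor with h | h
  · exact case_Y hl hb h4 hdm hcon rfl hX hY hXY hc h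
  · refine case_Y (E := rev E) (v := v) (X := Y) (Y := X) (loopless_rev hl) (bal_rev hb) h4 ?_ ?_ ?_ ?_ ?_ ?_ ?_ ?_
    · intro w
      rw [outN_rev, (bal_iff E).1 hb w]; exact hdm w
    · intro w hw
      rw [outN_rev, ← Finset.card_pos, (bal_iff E).1 hb w, Finset.card_pos] at hw
      exact blocked_rev hb (hcon w hw)
    · rw [outN_rev, (bal_iff E).1 hb v]
    · rw [inN_rev]; exact hY
    · rw [outN_rev]; exact hX
    · intro y hy x hx
      exact ⟨(hXY x hx y hy).1.symm, mem_rev.2 (hXY x hx y hy).2⟩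
    · omega
    · exact h


/-! ### base of the induction: digons -/

theorem fiber_sub (E : Finset (V × V)) (a b : V) :
    (E.filter fun e => s(e.1, e.2) = s(a, b)) ⊆ {(a, b), (b, a)} := by
  rintro ⟨c, d⟩ h
  have h2 := (mem_filter.1 h).2
  simp only [Sym2.eq_iff] at h2
  simp only [mem_insert, mem_singleton, Prod.mk.injEq]
  exact h2

theorem digon_base {E : Finset (V × V)} (hl : Loopless E) {S : Finset V}
    (hS : ∀ a ∈ E, a.1 ∈ S ∧ a.2 ∈ S) :
    ∃ c, Pack E c ∧ E.card ≤ c + S.card.choose 2 := by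
  classical
  set I := E.image fun e => s(e.1, e.2) with hI
  set Dg := I.filter fun z => 1 < (E.filter fun e => s(e.1, e.2) = z).card with hDg
  have h2 : ∀ z ∈ I, (E.filter fun e => s(e.1, e.2) = z).card ≤ 2 := by
    intro z hz
    obtain ⟨⟨a, b⟩, hab, rfl⟩ := mem_image.1 hz
    exact (Finset.card_le_card (fiber_sub E a b)).trans Finset.card_le_two
  refine ⟨Dg.card, ⟨{z // z ∈ Dg}, inferInstance, fun z => E.filter fun e => s(e.1, e.2) = z.1,
    by rw [Fintype.card_coe], ?_, ?_⟩, ?_⟩
  · rintro ⟨z, hz⟩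
    have hz1 := (mem_filter.1 hz).1
    have hz2 := (mem_filter.1 hz).2
    refine ⟨Finset.card_pos.1 (lt_trans Nat.zero_lt_one hz2), Finset.filter_subset _ _, ?_⟩
    obtain ⟨⟨a, b⟩, hab, rfl⟩ := mem_image.1 hz1
    intro f
    have heq : (E.filter fun e => s(e.1, e.2) = s(a, b)) = {(a, b), (b, a)} :=
      Finset.eq_of_subset_of_card_le (fiber_sub E a b) (Finset.card_le_two.trans hz2)
    simp only at heq ⊢
    rw [heq, Finset.sum_pair]
    · simp
    · intro h
      exact hl _ hab (congrArg Prod.fst h)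
  · rintro ⟨z, hz⟩ ⟨w, hw⟩ hne
    rw [Finset.disjoint_left]
    intro e he he'
    apply hne
    have h3 := (mem_filter.1 he).2
    have h4 := (mem_filter.1 he').2
    simp only at h3 h4
    simp only [Subtype.mk.injEq]
    rw [← h3, ← h4]
  · have hIc : I.card ≤ S.card.choose 2 := by
      rw [← Sym2.card_image_offDiag]
      apply Finset.card_le_card
      intro z hz
      obtain ⟨⟨a, b⟩, hab, rfl⟩ := mem_image.1 hz
      exact mem_image.2 ⟨(a, b), mem_offDiag.2 ⟨(hS _ hab).1, (hS _ hab).2, hl _ hab⟩, rfl⟩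
    have hsum : E.card = ∑ z ∈ I, (E.filter fun e => s(e.1, e.2) = z).card :=
      Finset.card_eq_sum_card_image _ _
    have hle : ∑ z ∈ I, (E.filter fun e => s(e.1, e.2) = z).card ≤
        ∑ z ∈ I, (1 + if 1 < (E.filter fun e => s(e.1, e.2) = z).card then 1 else 0) := by
      refine Finset.sum_le_sum fun z hz => ?_
      have := h2 z hz
      split_ifs <;> omega
    rw [Finset.sum_add_distrib, ← Finset.card_filter] at hle
    simp only [Finset.sum_const, smul_eq_mul, mul_one] at hle
    rw [hsum]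
    have h9 : I.card + Dg.card ≤ Dg.card + S.card.choose 2 := by omega
    exact hle.trans h9

/-! ### the induction -/

theorem choose_identity : ∀ k : ℕ, k.choose 2 + (k + 1).choose 2 = k * k := by
  intro k
  induction k with
  | zero => rfl
  | succ k ih =>
    rw [Nat.choose_succ_succ' (k + 1) 1, Nat.choose_one_right]
    have h1 : (k + 1).choose 2 = k + k.choose 2 := by
      rw [Nat.choose_succ_succ' k 1, Nat.choose_one_right]
    nlinarith

theorem main_ind (k : ℕ) (hk : k ≤ 4) : ∀ (n : ℕ) (S : Finset V) (E : Finset (V × V)),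
    S.card = n → k ≤ n → Loopless E → Bal E → (∀ a ∈ E, a.1 ∈ S ∧ a.2 ∈ S) →
    (∀ v, (outN E v).card ≤ k) → ∃ c, Pack E c ∧ E.card + (k + 1).choose 2 ≤ c + k * n := by
  intro n
  induction n with
  | zero =>
    intro S E hSn hkn hl hb hS hd
    obtain ⟨c, hc, hle⟩ := digon_base hl hS
    obtain rfl : k = 0 := by omega
    refine ⟨c, hc, ?_⟩
    rw [hSn] at hle
    simpa using hle
  | succ n ih =>
    intro S E hSn hkn hl hb hS hd
    rcases Nat.lt_or_ge n k with hnk | hnk
    · obtain rfl : k = n + 1 := by omega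
      obtain ⟨c, hc, hle⟩ := digon_base hl hS
      refine ⟨c, hc, ?_⟩
      rw [hSn] at hle
      have := choose_identity (n + 1)
      omega
    · rcases E.eq_empty_or_nonempty with rfl | hne
      · refine ⟨0, ⟨Empty, inferInstance, fun e => e.elim, by simp, fun e => e.elim,
          fun e => e.elim⟩, ?_⟩
        have := choose_identity k
        have h1 : k * k ≤ k * (n + 1) := Nat.mul_le_mul_left k hkn
        simp only [Finset.card_empty]
        omega
      · obtain ⟨v, hv, hvb⟩ := exists_unblocked hl hb hne (fun w => (hd w).trans hk)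
        obtain ⟨m, m', h1, h2⟩ := exists_matching hb hvb
        have D : MData E v m m' := ⟨hl, h1, h2⟩
        have hvS : v ∈ S := by
          obtain ⟨w, hw⟩ := hv
          exact (hS _ (mem_outN.1 hw)).1
        obtain ⟨c, hc, hle⟩ := ih (S.erase v) (elim2 E v m)
          (by rw [Finset.card_erase_of_mem hvS, hSn]; rfl) hnk (loopless_elim2 E v m)
          (bal_elim2 D hb) (elim2_support D hS) (fun w => (deg_elim2 D w).trans (hd w))
        refine ⟨c + ((elim1 E v m).filter fun a => ¬ (a.1 ≠ a.2)).card,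
          pack_lift D (pack_loops hc), ?_⟩
        have h3 := card_elim1 D
        have h4 := Finset.card_filter_add_card_filter_not (s := elim1 E v m) (fun a => a.1 ≠ a.2)
        have h5 : elim2 E v m = (elim1 E v m).filter fun a => a.1 ≠ a.2 := rfl
        rw [← h5] at h4
        have h6 := hd v
        have h7 : k * (n + 1) = k * n + k := by ring
        omega

/-! ### a nonempty balanced set contains a directed cycle -/

theorem exists_cycle {A : Finset (V × V)} (hne : A.Nonempty) (hl : Loopless A) (hb : Bal A) :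
    ∃ σ : Equiv.Perm V, σ.IsCycle ∧ ∀ v, σ v ≠ v → (v, σ v) ∈ A := by
  classical
  have hnext : ∀ v, (inN A v).Nonempty → ∃ w, (v, w) ∈ A := by
    intro v hv
    have h1 : 0 < (outN A v).card := by
      rw [← (bal_iff A).1 hb v]; exact Finset.card_pos.2 hv
    obtain ⟨w, hw⟩ := Finset.card_pos.1 h1
    exact ⟨w, mem_outN.1 hw⟩
  obtain ⟨⟨a, b⟩, hab⟩ := hne
  have : Nonempty V := ⟨a⟩
  choose! nx hnx using hnext
  have hb' : (inN A b).Nonempty := ⟨a, mem_inN.2 hab⟩
  have hiter : ∀ j, (inN A (nx^[j] b)).Nonempty := by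
    intro j
    induction j with
    | zero => exact hb'
    | succ j ih =>
      rw [Function.iterate_succ_apply']
      exact ⟨_, mem_inN.2 (hnx _ ih)⟩
  obtain ⟨i, j, hij, heq⟩ : ∃ i j : ℕ, i < j ∧ nx^[i] b = nx^[j] b := by
    obtain ⟨i, j, hne, h⟩ := Finite.exists_ne_map_eq_of_infinite (fun n : ℕ => nx^[n] b)
    rcases lt_or_gt_of_ne hne with h1 | h1
    · exact ⟨i, j, h1, h⟩
    · exact ⟨j, i, h1, h.symm⟩
  obtain ⟨p, hp⟩ : ∃ p, p = nx^[i] b := ⟨_, rfl⟩
  obtain ⟨t, ht0, ht⟩ : ∃ t, 0 < t ∧ nx^[t] p = p := by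
    refine ⟨j - i, by omega, ?_⟩
    rw [hp, ← Function.iterate_add_apply, show j - i + i = j by omega, ← heq]
  have hpit : ∀ l, (inN A (nx^[l] p)).Nonempty := by
    intro l
    rw [hp, ← Function.iterate_add_apply]
    exact hiter _
  have harc : ∀ l, (nx^[l] p, nx^[l + 1] p) ∈ A := by
    intro l
    rw [Function.iterate_succ_apply']
    exact hnx _ (hpit l)
  set O : Set V := {u | ∃ l, nx^[l] p = u} with hO
  have hOper : ∀ u ∈ O, nx^[t] u = u := by
    rintro u ⟨l, rfl⟩
    rw [← Function.iterate_add_apply, Nat.add_comm, Function.iterate_add_apply, ht]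
  have hOnx : ∀ u ∈ O, nx u ∈ O := by
    rintro u ⟨l, rfl⟩
    exact ⟨l + 1, Function.iterate_succ_apply' _ _ _⟩
  have hinj : Function.Injective (fun u => if u ∈ O then nx u else u) := by
    intro u w huw
    simp only at huw
    by_cases hu : u ∈ O <;> by_cases hw : w ∈ O
    · simp only [hu, hw, if_true] at huw
      rw [← hOper u hu, ← hOper w hw]
      obtain ⟨t', rfl⟩ : ∃ t', t = t' + 1 := ⟨t - 1, by omega⟩
      rw [Function.iterate_succ_apply, Function.iterate_succ_apply, huw]
    · simp only [hu, hw, if_true, if_false] at huw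
      exact absurd (huw ▸ hOnx u hu) hw
    · simp only [hu, hw, if_true, if_false] at huw
      exact absurd (huw ▸ hOnx w hw) hu
    · simpa only [hu, hw, if_false] using huw
  obtain ⟨σ, hσ⟩ : ∃ σ : Equiv.Perm V, ∀ u, σ u = if u ∈ O then nx u else u :=
    ⟨Equiv.ofBijective _ (Finite.injective_iff_bijective.1 hinj), fun u => rfl⟩
  have hmove : ∀ u ∈ O, (u, σ u) ∈ A := by
    rintro u ⟨l, rfl⟩
    rw [hσ, if_pos ⟨l, rfl⟩]
    have := harc l
    rwa [Function.iterate_succ_apply'] at this
  have hfix : ∀ u, σ u ≠ u → u ∈ O := by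
    intro u hu
    by_contra hcon
    exact hu (by rw [hσ, if_neg hcon])
  have hpow : ∀ l : ℕ, (σ ^ l) p = nx^[l] p := by
    intro l
    induction l with
    | zero => rfl
    | succ l ih =>
      rw [pow_succ', Equiv.Perm.mul_apply, ih, hσ, if_pos ⟨l, rfl⟩, Function.iterate_succ_apply']
  refine ⟨σ, ⟨p, ?_, ?_⟩, ?_⟩
  · intro h
    have := hmove p ⟨0, rfl⟩
    rw [h] at this
    exact hl _ this rfl
  · intro y hy
    obtain ⟨l, hl'⟩ := hfix y hy
    exact ⟨(l : ℤ), by rw [zpow_natCast, hpow, hl']⟩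
  · intro u hu
    exact hmove u (hfix u hu)


/-! ### digons and the complement -/

/-- arcs whose reverse is absent -/
def single (F : Finset (V × V)) : Finset (V × V) := F.filter fun a => (a.2, a.1) ∉ F

/-- arcs whose reverse is present -/
def twoway (F : Finset (V × V)) : Finset (V × V) := F.filter fun a => (a.2, a.1) ∈ F

theorem card_split (F : Finset (V × V)) : (twoway F).card + (single F).card = F.card :=
  Finset.card_filter_add_card_filter_not _

theorem pack_zero (F : Finset (V × V)) : Pack F 0 :=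
  ⟨Empty, inferInstance, fun e => e.elim, by simp, fun e => e.elim, fun e => e.elim⟩

theorem loopless_mono {F F' : Finset (V × V)} (h : F' ⊆ F) (hl : Loopless F) : Loopless F' :=
  fun a ha => hl a (h ha)

theorem remove_digon {F : Finset (V × V)} {a b : V} (hne : a ≠ b) {c : ℕ} (h : Pack F (c + 1)) :
    Pack (F \ {(a, b), (b, a)}) c := by
  classical
  obtain ⟨ι, hι, P, hc, hP, hd⟩ := h
  by_cases hB : ∃ i j, i ≠ j ∧ (a, b) ∈ P i ∧ (b, a) ∈ P j
  · obtain ⟨i, j, hij, hi, hj⟩ := hB
    have hbi : (b, a) ∉ P i := fun h => Finset.disjoint_left.1 (hd i j hij) h hj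
    refine ⟨{l // l ≠ i}, inferInstance,
      fun l => if l.1 = j then (P i ∪ P j) \ {(a, b), (b, a)} else P l.1, ?_, ?_, ?_⟩
    · rw [Fintype.card_subtype_compl, Fintype.card_subtype_eq]
      omega
    · rintro ⟨l, hl⟩
      by_cases hlj : l = j
      · simp only [hlj, if_true]
        refine ⟨?_, ?_, ?_⟩
        · by_contra hcon
          rw [Finset.not_nonempty_iff_eq_empty, Finset.sdiff_eq_empty_iff_subset] at hcon
          have h1 : P i = {(a, b)} := by
            apply Finset.Subset.antisymm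
            · intro e he
              have := hcon (mem_union_left _ he)
              rcases mem_insert.1 this with h | h
              · rw [h]; simp
              · rw [mem_singleton.1 h] at he
                exact absurd he hbi
            · rw [Finset.singleton_subset_iff]; exact hi
          have h2 := (hP i).2.2 (fun w => if w = a then 1 else 0)
          rw [h1, Finset.sum_singleton] at h2
          simp [hne.symm] at h2
        · apply Finset.sdiff_subset_sdiff _ (Finset.Subset.refl _)
          exact Finset.union_subset (hP i).2.1 (hP j).2.1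
        · intro f
          have hsub : ({(a, b), (b, a)} : Finset (V × V)) ⊆ P i ∪ P j := by
            intro e he
            rcases mem_insert.1 he with h | h
            · rw [h]; exact mem_union_left _ hi
            · rw [mem_singleton.1 h]; exact mem_union_right _ hj
          have h1 := Finset.sum_sdiff (f := fun e : V × V => f e.1 - f e.2) hsub
          rw [Finset.sum_union (hd i j hij), (hP i).2.2 f, (hP j).2.2 f, Finset.sum_pair] at h1
          · simp only at h1 ⊢
            linarith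
          · intro h
            exact hne (congrArg Prod.fst h)
      · simp only [hlj, if_false]
        refine ⟨(hP l).1, ?_, (hP l).2.2⟩
        intro e he
        rw [mem_sdiff]
        refine ⟨(hP l).2.1 he, ?_⟩
        intro h
        rcases mem_insert.1 h with h | h
        · rw [h] at he
          exact Finset.disjoint_left.1 (hd l i hl) he hi
        · rw [mem_singleton.1 h] at he
          exact Finset.disjoint_left.1 (hd l j hlj) he hj
    · rintro ⟨l, hl⟩ ⟨l', hl'⟩ hll
      have hll' : l ≠ l' := fun h => hll (by simp [h])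
      by_cases h1 : l = j
      · have h2 : l' ≠ j := fun h => hll' (by rw [h1, h])
        simp only [h1, h2, if_true, if_false]
        apply Disjoint.mono_left Finset.sdiff_subset
        rw [Finset.disjoint_union_left]
        exact ⟨hd i l' (fun h => hl' h.symm), hd j l' (fun h => h2 h.symm)⟩
      · by_cases h2 : l' = j
        · simp only [h1, h2, if_true, if_false]
          apply Disjoint.mono_right Finset.sdiff_subset
          rw [Finset.disjoint_union_right]
          exact ⟨hd l i hl, hd l j h1⟩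
        · simp only [h1, h2, if_false]
          exact hd l l' hll'
  · have hA : ∃ i, ∀ l, l ≠ i → (a, b) ∉ P l ∧ (b, a) ∉ P l := by
      have hne' : Nonempty ι := Fintype.card_pos_iff.1 (by omega)
      push Not at hB
      by_cases h1 : ∃ i, (a, b) ∈ P i
      · obtain ⟨i, hi⟩ := h1
        exact ⟨i, fun l hl => ⟨fun h => Finset.disjoint_left.1 (hd l i hl) h hi,
          hB i l hl.symm hi⟩⟩
      · push Not at h1
        by_cases h2 : ∃ j, (b, a) ∈ P j
        · obtain ⟨j, hj⟩ := h2
          exact ⟨j, fun l hl => ⟨h1 l, fun h => Finset.disjoint_left.1 (hd l j hl) h hj⟩⟩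
        · push Not at h2
          exact ⟨hne'.some, fun l _ => ⟨h1 l, h2 l⟩⟩
    obtain ⟨i, hi⟩ := hA
    refine ⟨{l // l ≠ i}, inferInstance, fun l => P l.1, ?_, ?_, ?_⟩
    · rw [Fintype.card_subtype_compl, Fintype.card_subtype_eq]
      omega
    · rintro ⟨l, hl⟩
      refine ⟨(hP l).1, ?_, (hP l).2.2⟩
      intro e he
      rw [mem_sdiff]
      refine ⟨(hP l).2.1 he, ?_⟩
      intro h
      rcases mem_insert.1 h with h | h
      · rw [h] at he
        exact (hi l hl).1 he
      · rw [mem_singleton.1 h] at he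
        exact (hi l hl).2 he
    · rintro ⟨l, hl⟩ ⟨l', hl'⟩ hll
      exact hd l l' (fun h => hll (by simp [h]))

theorem add_digon {F : Finset (V × V)} {a b : V} (hne : a ≠ b) (hab : (a, b) ∈ F)
    (hba : (b, a) ∈ F) {c : ℕ} (h : Pack (F \ {(a, b), (b, a)}) c) : Pack F (c + 1) := by
  obtain ⟨ι, hι, P, hc, hP, hd⟩ := h
  refine ⟨ι ⊕ Unit, inferInstance, Sum.elim P (fun _ => {(a, b), (b, a)}), ?_, ?_, ?_⟩
  · rw [Fintype.card_sum, Fintype.card_unit]; omega
  · rintro (i | u)
    · exact ⟨(hP i).1, (hP i).2.1.trans Finset.sdiff_subset, (hP i).2.2⟩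
    · refine ⟨by simp, ?_, ?_⟩
      · intro e he
        simp only [Sum.elim_inr, mem_insert, mem_singleton] at he
        rcases he with rfl | rfl
        exacts [hab, hba]
      · intro f
        simp only [Sum.elim_inr]
        rw [Finset.sum_pair]
        · simp
        · intro h
          exact hne (congrArg Prod.fst h)
  · rintro (i | u) (j | w) hij
    · exact hd i j (fun h => hij (by rw [h]))
    · simp only [Sum.elim_inl, Sum.elim_inr]
      rw [Finset.disjoint_left]
      intro e he he'
      exact (mem_sdiff.1 ((hP i).2.1 he)).2 he'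
    · simp only [Sum.elim_inl, Sum.elim_inr]
      rw [Finset.disjoint_right]
      intro e he he'
      exact (mem_sdiff.1 ((hP j).2.1 he)).2 he'
    · exact absurd rfl hij

theorem twoway_sdiff {F : Finset (V × V)} {a b : V} :
    twoway (F \ {(a, b), (b, a)}) = twoway F \ {(a, b), (b, a)} := by
  ext ⟨x, y⟩
  simp only [twoway, mem_filter, mem_sdiff, mem_insert, mem_singleton, Prod.mk.injEq]
  tauto

theorem single_sdiff {F : Finset (V × V)} {a b : V} (hab : (a, b) ∈ F) (hba : (b, a) ∈ F) :
    single (F \ {(a, b), (b, a)}) = single F := by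
  ext ⟨x, y⟩
  simp only [single, mem_filter, mem_sdiff, mem_insert, mem_singleton, Prod.mk.injEq]
  constructor
  · rintro ⟨⟨h1, h2⟩, h3⟩
    refine ⟨h1, fun h4 => h3 ⟨h4, ?_⟩⟩
    tauto
  · rintro ⟨h1, h2⟩
    refine ⟨⟨h1, ?_⟩, fun h => h2 h.1⟩
    rintro (⟨rfl, rfl⟩ | ⟨rfl, rfl⟩)
    · exact h2 hba
    · exact h2 hab

theorem card_twoway_sdiff {F : Finset (V × V)} {a b : V} (hne : a ≠ b) (hab : (a, b) ∈ F)
    (hba : (b, a) ∈ F) : (twoway (F \ {(a, b), (b, a)})).card + 2 = (twoway F).card := by
  rw [twoway_sdiff]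
  have h1 : ({(a, b), (b, a)} : Finset (V × V)) ⊆ twoway F := by
    intro e he
    rcases mem_insert.1 he with h | h
    · rw [h]; exact mem_filter.2 ⟨hab, hba⟩
    · rw [mem_singleton.1 h]; exact mem_filter.2 ⟨hba, hab⟩
  have h2 := Finset.card_sdiff_add_card_eq_card h1
  rwa [Finset.card_pair] at h2
  intro h
  exact hne (congrArg Prod.fst h)

theorem dig_remove : ∀ (N : ℕ) (F : Finset (V × V)) (c : ℕ), (twoway F).card = N → Loopless F →
    Pack F c → ∃ c', Pack (single F) c' ∧ 2 * c ≤ 2 * c' + N := by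
  intro N
  induction N using Nat.strong_induction_on with
  | _ N ih =>
    intro F c hN hl hp
    rcases (twoway F).eq_empty_or_nonempty with h0 | ⟨⟨a, b⟩, hab⟩
    · refine ⟨c, ?_, by omega⟩
      have : single F = F := by
        apply Finset.filter_true_of_mem
        intro e he h1
        have : e ∈ twoway F := mem_filter.2 ⟨he, h1⟩
        rw [h0] at this
        simp at this
      rwa [this]
    · obtain ⟨h1, h2⟩ := mem_filter.1 hab
      simp only at h2
      have hne := hl _ h1
      simp only at hne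
      rcases c with _ | c
      · exact ⟨0, pack_zero _, by omega⟩
      · have h3 := card_twoway_sdiff hne h1 h2
        obtain ⟨c', h4, h5⟩ := ih _ (by omega) (F \ {(a, b), (b, a)}) c rfl
          (loopless_mono Finset.sdiff_subset hl) (remove_digon hne hp)
        rw [single_sdiff h1 h2] at h4
        exact ⟨c', h4, by omega⟩

theorem dig_add : ∀ (N : ℕ) (F : Finset (V × V)) (c : ℕ), (twoway F).card = N → Loopless F →
    Pack (single F) c → ∃ c', Pack F c' ∧ 2 * c + N ≤ 2 * c' := by
  intro N
  induction N using Nat.strong_induction_on with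
  | _ N ih =>
    intro F c hN hl hp
    rcases (twoway F).eq_empty_or_nonempty with h0 | ⟨⟨a, b⟩, hab⟩
    · refine ⟨c, ?_, ?_⟩
      · have : single F = F := by
          apply Finset.filter_true_of_mem
          intro e he h1
          have : e ∈ twoway F := mem_filter.2 ⟨he, h1⟩
          rw [h0] at this
          simp at this
        rwa [this] at hp
      · rw [h0] at hN
        simp only [Finset.card_empty] at hN
        omega
    · obtain ⟨h1, h2⟩ := mem_filter.1 hab
      simp only at h2
      have hne := hl _ h1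
      simp only at hne
      have h3 := card_twoway_sdiff hne h1 h2
      rw [← single_sdiff h1 h2] at hp
      obtain ⟨c', h4, h5⟩ := ih _ (by omega) (F \ {(a, b), (b, a)}) c rfl
        (loopless_mono Finset.sdiff_subset hl) hp
      exact ⟨c' + 1, add_digon hne h1 h2 h4, by omega⟩

theorem pack_rev {F : Finset (V × V)} {c : ℕ} (h : Pack F c) : Pack (rev F) c := by
  obtain ⟨ι, hι, P, hc, hP, hd⟩ := h
  refine ⟨ι, hι, fun i => rev (P i), hc, ?_, ?_⟩
  · intro i
    refine ⟨?_, ?_, bal_rev (hP i).2.2⟩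
    · obtain ⟨⟨a, b⟩, h⟩ := (hP i).1
      exact ⟨(b, a), mem_rev.2 h⟩
    · rintro ⟨a, b⟩ h
      exact mem_rev.2 ((hP i).2.1 (mem_rev.1 h))
  · intro i j hij
    rw [Finset.disjoint_left]
    rintro ⟨a, b⟩ h h'
    exact Finset.disjoint_left.1 (hd i j hij) (mem_rev.1 h) (mem_rev.1 h')

theorem card_rev (F : Finset (V × V)) : (rev F).card = F.card := by
  refine Finset.card_bij (fun e _ => (e.2, e.1)) ?_ ?_ ?_
  · rintro ⟨a, b⟩ h; exact mem_rev.1 h
  · rintro ⟨a, b⟩ _ ⟨a', b'⟩ _ h
    simp only [Prod.mk.injEq] at h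
    rw [h.1, h.2]
  · rintro ⟨a, b⟩ h
    exact ⟨(b, a), mem_rev.2 h, rfl⟩

def cmpl (E : Finset (V × V)) : Finset (V × V) := univ.filter fun a => a.1 ≠ a.2 ∧ a ∉ E

theorem single_cmpl {E : Finset (V × V)} (hl : Loopless E) : single E = rev (single (cmpl E)) := by
  ext ⟨a, b⟩
  rw [mem_rev]
  simp only [single, cmpl, mem_filter, mem_univ, true_and]
  constructor
  · rintro ⟨h1, h2⟩
    exact ⟨⟨(hl _ h1).symm, h2⟩, fun h => h.2 h1⟩
  · rintro ⟨⟨h1, h2⟩, h3⟩
    refine ⟨?_, h2⟩
    by_contra h
    exact h3 ⟨h1.symm, h⟩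

theorem outN_cmpl {E : Finset (V × V)} (hl : Loopless E) (v : V) :
    (outN (cmpl E) v).card + (outN E v).card + 1 = Fintype.card V := by
  have h1 : outN (cmpl E) v = (insert v (outN E v))ᶜ := by
    ext w
    rw [mem_outN]
    simp only [cmpl, mem_filter, mem_univ, true_and, mem_compl, mem_insert, mem_outN, not_or]
    exact and_congr_left' ne_comm
  rw [h1, Finset.card_compl, Finset.card_insert_of_notMem (fun h => hl _ (mem_outN.1 h) rfl)]
  have h2 : (insert v (outN E v)).card ≤ Fintype.card V := Finset.card_le_univ _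
  rw [Finset.card_insert_of_notMem (fun h => hl _ (mem_outN.1 h) rfl)] at h2
  omega

theorem inN_cmpl {E : Finset (V × V)} (hl : Loopless E) (v : V) :
    (inN (cmpl E) v).card + (inN E v).card + 1 = Fintype.card V := by
  have h1 : inN (cmpl E) v = (insert v (inN E v))ᶜ := by
    ext w
    rw [mem_inN]
    simp only [cmpl, mem_filter, mem_univ, true_and, mem_compl, mem_insert, mem_inN, not_or]
  rw [h1, Finset.card_compl, Finset.card_insert_of_notMem (fun h => hl _ (mem_inN.1 h) rfl)]
  have h2 : (insert v (inN E v)).card ≤ Fintype.card V := Finset.card_le_univ _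
  rw [Finset.card_insert_of_notMem (fun h => hl _ (mem_inN.1 h) rfl)] at h2
  omega

theorem card_of_reg {E : Finset (V × V)} {k : ℕ} (h : ∀ v, (outN E v).card = k) :
    E.card = Fintype.card V * k := by
  have h1 : E.card = ∑ v, (outN E v).card := by
    rw [Finset.card_eq_sum_card_fiberwise (f := fun a => a.1) (t := univ) (fun _ _ => by simp)]
    exact Finset.sum_congr rfl fun v _ => (card_outN E v).symm
  rw [h1, Finset.sum_congr rfl fun v _ => h v]
  simp

theorem two_choose (k : ℕ) : 2 * (k + 1).choose 2 = k * (k + 1) := by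
  induction k with
  | zero => rfl
  | succ k ih =>
    rw [Nat.choose_succ_succ' (k + 1) 1, Nat.choose_one_right, Nat.mul_add, ih]
    ring

theorem small {E : Finset (V × V)} (hl : Loopless E) {k : ℕ} (hk : k ≤ 4)
    (hout : ∀ v, (outN E v).card = k) (hin : ∀ v, (inN E v).card = k)
    (hn : k ≤ Fintype.card V) : Pack E ((k + 1).choose 2) := by
  obtain ⟨c, hc, hle⟩ := main_ind k hk (Fintype.card V) univ E (Finset.card_univ) hn hl
    ((bal_iff E).2 fun v => by rw [hout, hin]) (fun a _ => ⟨mem_univ _, mem_univ _⟩)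
    (fun v => (hout v).le)
  rw [card_of_reg hout, Nat.mul_comm] at hle
  obtain ⟨ι, hι, P, hc, hP, hd⟩ := hc
  exact ⟨ι, hι, P, by omega, hP, hd⟩

theorem dual {E : Finset (V × V)} (hl : Loopless E) {k : ℕ}
    (hout : ∀ v, (outN E v).card = k) (hin : ∀ v, (inN E v).card = k)
    (hn1 : k + 1 ≤ Fintype.card V) (hn : Fintype.card V ≤ k + 5) :
    Pack E ((k + 1).choose 2) := by
  obtain ⟨r, hr⟩ : ∃ r, Fintype.card V = k + 1 + r := ⟨Fintype.card V - (k + 1), by omega⟩
  have hHl : Loopless (cmpl E) := fun a ha => (mem_filter.1 ha).2.1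
  have hHout : ∀ v, (outN (cmpl E) v).card = r := by
    intro v
    have := outN_cmpl hl v
    rw [hout v] at this
    omega
  have hHin : ∀ v, (inN (cmpl E) v).card = r := by
    intro v
    have := inN_cmpl hl v
    rw [hin v] at this
    omega
  have h1 := small hHl (by omega) hHout hHin (by omega)
  obtain ⟨c1, h2, h3⟩ := dig_remove _ _ _ rfl hHl h1
  have h4 := pack_rev h2
  rw [← single_cmpl hl] at h4
  obtain ⟨c2, h5, h6⟩ := dig_add _ _ _ rfl hl h4
  have h7 := card_split E
  have h8 := card_split (cmpl E)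
  rw [card_of_reg hout] at h7
  rw [card_of_reg hHout] at h8
  have h9 : (single E).card = (single (cmpl E)).card := by
    rw [single_cmpl hl, card_rev]
  have h10 := two_choose k
  have h11 := two_choose r
  rw [hr] at h7 h8
  obtain ⟨ι, hι, P, hc, hP, hd⟩ := h5
  refine ⟨ι, hι, P, ?_, hP, hd⟩
  have h12 : 2 * (k + 1).choose 2 ≤ 2 * c2 := by
    nlinarith
  omega

theorem cycles_of_pack {E : Finset (V × V)} (hl : Loopless E) {c : ℕ} (h : Pack E c) :
    ∃ C : Fin c → Equiv.Perm V,
      (∀ i, (C i).IsCycle ∧ ∀ v, C i v ≠ v → (v, C i v) ∈ E) ∧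
      ∀ i j v, i ≠ j → C i v ≠ v → C i v ≠ C j v := by
  obtain ⟨ι, hι, P, hc, hP, hd⟩ := h
  obtain ⟨g⟩ : Nonempty (Fin c ↪ ι) := Function.Embedding.nonempty_of_card_le (by simpa using hc)
  have hex : ∀ i, ∃ σ : Equiv.Perm V, σ.IsCycle ∧ ∀ v, σ v ≠ v → (v, σ v) ∈ P (g i) :=
    fun i => exists_cycle (hP (g i)).1 (loopless_mono (hP (g i)).2.1 hl) (hP (g i)).2.2
  choose C hC hC' using hex
  refine ⟨C, fun i => ⟨hC i, fun v hv => (hP (g i)).2.1 (hC' i v hv)⟩, ?_⟩
  intro i j v hij hv heq
  have h1 := hC' i v hv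
  have h2 := hC' j v (by rw [← heq]; exact hv)
  rw [← heq] at h2
  exact Finset.disjoint_left.1 (hd (g i) (g j) (fun h => hij (g.injective h))) h1 h2


/-- there is a walk with `l` arcs from `x` to `z` -/
def Walk (E : Finset (V × V)) : ℕ → V → V → Prop
  | 0, x, z => x = z
  | l + 1, x, z => ∃ y, (x, y) ∈ E ∧ Walk E l y z

theorem Walk.append {E : Finset (V × V)} : ∀ {l l' : ℕ} {x y z : V}, Walk E l x y → Walk E l' y z →
    Walk E (l + l') x z := by
  intro l
  induction l with
  | zero =>
    intro l' x y z h h'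
    obtain rfl : x = y := h
    rw [Nat.zero_add]; exact h'
  | succ l ih =>
    intro l' x y z h h'
    obtain ⟨w, hw, h⟩ := h
    rw [Nat.succ_add]
    exact ⟨w, hw, ih h h'⟩

theorem Walk.one {E : Finset (V × V)} {x y : V} (h : (x, y) ∈ E) : Walk E 1 x y := ⟨y, h, rfl⟩

/-- a walk as a sequence of vertices -/
theorem Walk.seq {E : Finset (V × V)} : ∀ {l : ℕ} {x z : V}, Walk E l x z →
    ∃ p : ℕ → V, p 0 = x ∧ p l = z ∧ ∀ i < l, (p i, p (i + 1)) ∈ E := by
  intro l
  induction l with
  | zero =>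
    intro x z h
    obtain rfl : x = z := h
    exact ⟨fun _ => x, rfl, rfl, fun i hi => absurd hi (Nat.not_lt_zero _)⟩
  | succ l ih =>
    intro x z h
    obtain ⟨w, hw, h⟩ := h
    obtain ⟨p, h0, hl, hp⟩ := ih h
    refine ⟨fun i => if i = 0 then x else p (i - 1), by simp, by simp [hl], ?_⟩
    intro i hi
    rcases i with _ | i
    · simp [h0, hw]
    · simpa using hp i (by omega)

theorem walk_of_seq {E : Finset (V × V)} (p : ℕ → V) : ∀ (l i : ℕ),
    (∀ j, i ≤ j → j < i + l → (p j, p (j + 1)) ∈ E) → Walk E l (p i) (p (i + l)) := by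
  intro l
  induction l with
  | zero => intro i _; rfl
  | succ l ih =>
    intro i h
    refine ⟨p (i + 1), h i le_rfl (by omega), ?_⟩
    have := ih (i + 1) (fun j h1 h2 => h j (by omega) (by omega))
    rwa [show i + 1 + l = i + (l + 1) by omega] at this

/-- the shortest closed walk gives a balanced set of that many arcs -/
theorem short_bal {E : Finset (V × V)} {g : ℕ} (hg : 0 < g) {x : V} (hw : Walk E g x x)
    (hmin : ∀ l, 0 < l → ∀ y, Walk E l y y → g ≤ l) :
    ∃ A : Finset (V × V), A ⊆ E ∧ Bal A ∧ A.card = g := by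
  obtain ⟨p, h0, hl, hp⟩ := hw.seq
  have hinj : ∀ i < g, ∀ j < g, i < j → p i ≠ p j := by
    intro i hi j hj hij h
    have h1 := walk_of_seq (E := E) p (j - i) i (fun l h2 h3 => hp l (by omega))
    rw [show i + (j - i) = j by omega, ← h] at h1
    have := hmin (j - i) (by omega) _ h1
    omega
  have hinj' : Set.InjOn (fun i => (p i, p (i + 1))) (Finset.range g : Set ℕ) := by
    intro i hi j hj h
    have h1 : p i = p j := congrArg Prod.fst h
    have hi' : i < g := by simpa using hi
    have hj' : j < g := by simpa using hj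
    rcases lt_trichotomy i j with h2 | h2 | h2
    · exact absurd h1 (hinj i hi' j hj' h2)
    · exact h2
    · exact absurd h1.symm (hinj j hj' i hi' h2)
  refine ⟨(Finset.range g).image fun i => (p i, p (i + 1)), ?_, ?_, ?_⟩
  · intro a ha
    obtain ⟨i, hi, rfl⟩ := mem_image.1 ha
    exact hp i (mem_range.1 hi)
  · intro f
    rw [Finset.sum_image hinj']
    simp only
    rw [Finset.sum_range_sub' (fun i => f (p i)), h0, hl, sub_self]
  · rw [Finset.card_image_of_injOn hinj', Finset.card_range]

/-- truncated distance -/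
noncomputable def dst (E : Finset (V × V)) (g : ℕ) (x z : V) : ℕ := sInf {l | Walk E l x z ∨ l = g}

theorem dst_spec (E : Finset (V × V)) (g : ℕ) (x z : V) :
    Walk E (dst E g x z) x z ∨ dst E g x z = g :=
  Nat.sInf_mem (s := {l | Walk E l x z ∨ l = g}) ⟨g, Or.inr rfl⟩

theorem dst_le {E : Finset (V × V)} {g : ℕ} {x z : V} {l : ℕ} (h : Walk E l x z) :
    dst E g x z ≤ l := Nat.sInf_le (Or.inl h)

theorem dst_le' (E : Finset (V × V)) (g : ℕ) (x z : V) : dst E g x z ≤ g := Nat.sInf_le (Or.inr rfl)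

theorem dst_self (E : Finset (V × V)) (g : ℕ) (x : V) : dst E g x x = 0 :=
  Nat.le_zero.1 (dst_le (l := 0) rfl)

theorem dst_step {E : Finset (V × V)} {g : ℕ} {x y : V} (h : (x, y) ∈ E) (z : V) :
    dst E g x z ≤ dst E g y z + 1 := by
  rcases dst_spec E g y z with h1 | h1
  · exact dst_le ⟨y, h, h1⟩
  · rw [h1]; exact (dst_le' E g x z).trans (Nat.le_succ _)

theorem dst_arc {E : Finset (V × V)} {g : ℕ} {x y : V} (h : (x, y) ∈ E) : dst E g x y ≤ 1 :=
  dst_le (Walk.one h)

theorem dst_back {E : Finset (V × V)} {g : ℕ} (hmin : ∀ l, 0 < l → ∀ y, Walk E l y y → g ≤ l)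
    {x y : V} (h : (x, y) ∈ E) : g ≤ dst E g y x + 1 := by
  rcases dst_spec E g y x with h1 | h1
  · exact hmin _ (Nat.succ_pos _) x ⟨y, h, h1⟩
  · omega

theorem dst_pair {E : Finset (V × V)} {g : ℕ} (hmin : ∀ l, 0 < l → ∀ y, Walk E l y y → g ≤ l)
    {y z : V} (hne : y ≠ z) : g ≤ dst E g y z + dst E g z y := by
  rcases dst_spec E g y z with h1 | h1
  · rcases dst_spec E g z y with h2 | h2
    · refine hmin _ ?_ y (h1.append h2)
      by_contra hcon
      have h3 : dst E g y z = 0 := by omega
      rw [h3] at h1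
      exact hne h1
    · omega
  · omega

/-- the local inequality -/
theorem local_ineq {E : Finset (V × V)} (hl : Loopless E) {g : ℕ}
    (hmin : ∀ l, 0 < l → ∀ y, Walk E l y y → g ≤ l) (x : V) :
    (g : ℤ) * ((outN E x).card ^ 2 + (outN E x).card) ≤
      2 * ∑ y ∈ outN E x, (∑ z, (dst E g y z : ℤ) - ∑ z, (dst E g x z : ℤ)) +
        2 * (outN E x).card * Fintype.card V := by
  set N := outN E x with hN
  have hxN : x ∉ N := fun h => hl _ (mem_outN.1 h) rfl
  have h1 : ∀ y ∈ N, (g : ℤ) + ∑ z ∈ N, (dst E g y z : ℤ) ≤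
      (∑ z, (dst E g y z : ℤ) - ∑ z, (dst E g x z : ℤ)) + Fintype.card V := by
    intro y hy
    have hxy := mem_outN.1 hy
    have h2 : ∀ z, (if z = x then (g : ℤ) else 0) + (if z ∈ N then (dst E g y z : ℤ) else 0) ≤
        (dst E g y z : ℤ) - dst E g x z + 1 := by
      intro z
      by_cases hzx : z = x
      · subst hzx
        rw [if_pos rfl, if_neg hxN, dst_self]
        have := dst_back hmin hxy
        push_cast
        omega
      · rw [if_neg hzx]
        by_cases hzN : z ∈ N
        · rw [if_pos hzN]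
          have := dst_arc (g := g) (mem_outN.1 hzN)
          omega
        · rw [if_neg hzN]
          have := dst_step (g := g) hxy z
          omega
    have h3 := Finset.sum_le_sum fun z (_ : z ∈ (univ : Finset V)) => h2 z
    rw [Finset.sum_add_distrib, Finset.sum_add_distrib, Finset.sum_sub_distrib,
      Finset.sum_ite_eq' univ x, if_pos (mem_univ _), ← Finset.sum_filter,
      Finset.filter_mem_eq_inter, Finset.univ_inter] at h3
    simpa using h3
  have h4 := Finset.sum_le_sum h1
  rw [Finset.sum_add_distrib, Finset.sum_add_distrib, Finset.sum_const, Finset.sum_const,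
    nsmul_eq_mul, nsmul_eq_mul] at h4
  have h5 : (g : ℤ) * (N.card ^ 2 - N.card) ≤ 2 * ∑ y ∈ N, ∑ z ∈ N, (dst E g y z : ℤ) := by
    have h6 : 2 * ∑ y ∈ N, ∑ z ∈ N, (dst E g y z : ℤ) =
        ∑ y ∈ N, ∑ z ∈ N, ((dst E g y z : ℤ) + dst E g z y) := by
      simp only [Finset.sum_add_distrib]
      rw [Finset.sum_comm (f := fun y z => (dst E g z y : ℤ))]
      ring
    have h7 : ∀ y ∈ N, (g : ℤ) * (N.card - 1) ≤
        ∑ z ∈ N, ((dst E g y z : ℤ) + dst E g z y) := by
      intro y hy
      rw [← Finset.add_sum_erase N _ hy]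
      have h8 : ∑ z ∈ N.erase y, (g : ℤ) ≤ ∑ z ∈ N.erase y, ((dst E g y z : ℤ) + dst E g z y) := by
        refine Finset.sum_le_sum fun z hz => ?_
        have := dst_pair hmin (mem_erase.1 hz).1.symm
        exact_mod_cast this
      rw [Finset.sum_const, Finset.card_erase_of_mem hy, nsmul_eq_mul] at h8
      have h9 : 1 ≤ N.card := Finset.card_pos.2 ⟨y, hy⟩
      push_cast [Nat.cast_sub h9] at h8
      have h10 : (0 : ℤ) ≤ (dst E g y y : ℤ) + dst E g y y := by positivity
      linarith
    rw [h6]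
    have h11 := Finset.sum_le_sum h7
    rw [Finset.sum_const, nsmul_eq_mul] at h11
    calc (g : ℤ) * (N.card ^ 2 - N.card) = N.card * (g * (N.card - 1)) := by ring
      _ ≤ _ := h11
  nlinarith

/-- a nonempty Eulerian digraph has a short cycle -/
theorem girth_bound {E : Finset (V × V)} (hl : Loopless E) (hb : Bal E) (hne : E.Nonempty) :
    ∃ A : Finset (V × V), A ⊆ E ∧ Bal A ∧ 2 ≤ A.card ∧
      A.card * (E.card + Fintype.card V) ≤ 2 * Fintype.card V ^ 2 := by
  classical
  have hex : ∃ l, 0 < l ∧ ∃ y, Walk E l y y := by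
    obtain ⟨σ, ⟨p, hp, -⟩, hσ⟩ := exists_cycle hne hl hb
    have h1 : ∀ l, Walk E l p ((σ ^ l) p) := by
      intro l
      induction l with
      | zero => rfl
      | succ l ih =>
        refine ih.append (l' := 1) (z := (σ ^ (l + 1)) p) ?_
        rw [pow_succ', Equiv.Perm.mul_apply]
        apply Walk.one
        apply hσ
        intro h
        apply hp
        have h3 : (σ ^ l) (σ p) = (σ ^ l) p := by
          rw [← Equiv.Perm.mul_apply, ← pow_succ, pow_succ', Equiv.Perm.mul_apply, h]
        exact (σ ^ l).injective h3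
    refine ⟨orderOf σ, orderOf_pos σ, p, ?_⟩
    have := h1 (orderOf σ)
    rwa [pow_orderOf_eq_one, Equiv.Perm.one_apply] at this
  obtain ⟨hg, y, hy⟩ := Nat.find_spec hex
  have hmin : ∀ l, 0 < l → ∀ y, Walk E l y y → Nat.find hex ≤ l :=
    fun l h0 y h => Nat.find_min' hex ⟨h0, y, h⟩
  obtain ⟨g, hgdef⟩ : ∃ g, g = Nat.find hex := ⟨_, rfl⟩
  rw [← hgdef] at hg hy hmin
  obtain ⟨A, hA, hAb, hAc⟩ := short_bal hg hy hmin
  refine ⟨A, hA, hAb, ?_, ?_⟩
  · rw [hAc]
    by_contra hcon
    obtain rfl : g = 1 := by omega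
    obtain ⟨w, hw, h2⟩ := hy
    obtain rfl : w = y := h2
    exact hl _ hw rfl
  · rw [hAc]
    have h1 := Finset.sum_le_sum fun x (_ : x ∈ (univ : Finset V)) => local_ineq hl hmin x
    have hcardE : (E.card : ℤ) = ∑ v, ((outN E v).card : ℤ) := by
      rw [Finset.card_eq_sum_card_fiberwise (f := fun a => a.1) (t := univ) (fun _ _ => by simp)]
      push_cast
      exact Finset.sum_congr rfl fun v _ => by rw [card_outN]
    have hzero : ∑ x, ∑ y ∈ outN E x, (∑ z, (dst E g y z : ℤ) - ∑ z, (dst E g x z : ℤ)) = 0 := by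
      have h2 := hb (fun w => ∑ z, (dst E g w z : ℤ))
      have h3 : ∑ a ∈ E, ((∑ z, (dst E g a.1 z : ℤ)) - ∑ z, (dst E g a.2 z : ℤ)) =
          ∑ x, ∑ y ∈ outN E x, (∑ z, (dst E g x z : ℤ) - ∑ z, (dst E g y z : ℤ)) := by
        rw [← Finset.sum_fiberwise_of_maps_to (s := E) (t := univ) (g := fun a => a.1)
          (fun _ _ => mem_univ _)]
        refine Finset.sum_congr rfl fun v _ => ?_
        symm
        refine Finset.sum_bij (fun y _ => (v, y)) ?_ ?_ ?_ ?_
        · intro y hy; simpa using mem_outN.1 hy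
        · intro a _ b _ h; simpa using h
        · rintro ⟨a, b⟩ h
          simp only [mem_filter] at h
          obtain ⟨h1, rfl⟩ := h
          exact ⟨b, mem_outN.2 h1, rfl⟩
        · intro y _; rfl
      rw [h3] at h2
      rw [← neg_eq_zero, ← h2, ← Finset.sum_neg_distrib]
      refine Finset.sum_congr rfl fun x _ => ?_
      rw [← Finset.sum_neg_distrib]
      exact Finset.sum_congr rfl fun y _ => by ring
    rw [Finset.sum_add_distrib, ← Finset.mul_sum, ← Finset.mul_sum, hzero,
      Finset.sum_add_distrib, ← hcardE, ← Finset.sum_mul, ← Finset.mul_sum, ← hcardE] at h1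
    have hcs : (E.card : ℤ) ^ 2 ≤ Fintype.card V * ∑ v, ((outN E v).card : ℤ) ^ 2 := by
      rw [hcardE]
      have := sq_sum_le_card_mul_sum_sq (s := (univ : Finset V)) (f := fun v => ((outN E v).card : ℤ))
      simpa using this
    have hm : (0 : ℤ) < E.card := by exact_mod_cast Finset.card_pos.2 hne
    set S : ℤ := ∑ v, ((outN E v).card : ℤ) ^ 2
    set m : ℤ := (E.card : ℤ) with hmdef
    set n : ℤ := (Fintype.card V : ℤ) with hndef
    have hn : 0 ≤ n := by positivity
    have hg0 : (0 : ℤ) ≤ g := by positivity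
    have h4 : (g : ℤ) * (m + n) * m ≤ 2 * n ^ 2 * m := by
      have h5 : (g : ℤ) * (m ^ 2 + n * m) ≤ g * (n * S + n * m) := by
        apply mul_le_mul_of_nonneg_left _ hg0
        linarith
      have h6 : n * ((g : ℤ) * (S + m)) ≤ n * (2 * 0 + 2 * m * n) := by
        apply mul_le_mul_of_nonneg_left _ hn
        linarith
      nlinarith
    have h7 := le_of_mul_le_mul_right h4 hm
    have h8 : ((g * (E.card + Fintype.card V) : ℕ) : ℤ) ≤ ((2 * Fintype.card V ^ 2 : ℕ) : ℤ) := by
      push_cast
      exact h7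
    exact_mod_cast h8

/-- greedy packing -/
theorem greedy : ∀ (M : ℕ) (E : Finset (V × V)), E.card = M → Loopless E → Bal E →
    ∃ c, Pack E c ∧ (E.card + Fintype.card V) ^ 2 + 4 * c ≤
      Fintype.card V ^ 2 + 4 * Fintype.card V ^ 2 * c := by
  intro M
  induction M using Nat.strong_induction_on with
  | _ M ih =>
    intro E hM hl hb
    rcases E.eq_empty_or_nonempty with rfl | hne
    · exact ⟨0, pack_zero _, by simp⟩
    · obtain ⟨A, hA, hAb, hA2, hAg⟩ := girth_bound hl hb hne
      have hcard := Finset.card_sdiff_add_card_eq_card hA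
      have hb' : Bal (E \ A) := by
        intro f
        have := Finset.sum_sdiff (f := fun a : V × V => f a.1 - f a.2) hA
        rw [hAb f, hb f] at this
        linarith
      obtain ⟨c, hc, hle⟩ := ih (E \ A).card (by omega) (E \ A) rfl
        (loopless_mono Finset.sdiff_subset hl) hb'
      refine ⟨c + 1, ?_, ?_⟩
      · obtain ⟨ι, hι, P, hc', hP, hd⟩ := hc
        refine ⟨ι ⊕ Unit, inferInstance, Sum.elim P (fun _ => A), ?_, ?_, ?_⟩
        · rw [Fintype.card_sum, Fintype.card_unit]; omega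
        · rintro (i | u)
          · exact ⟨(hP i).1, (hP i).2.1.trans Finset.sdiff_subset, (hP i).2.2⟩
          · exact ⟨Finset.card_pos.1 (by simp only [Sum.elim_inr]; omega), hA, hAb⟩
        · rintro (i | u) (j | w) hij
          · exact hd i j (fun h => hij (by rw [h]))
          · simp only [Sum.elim_inl, Sum.elim_inr]
            rw [Finset.disjoint_left]
            intro e he he'
            exact (mem_sdiff.1 ((hP i).2.1 he)).2 he'
          · simp only [Sum.elim_inl, Sum.elim_inr]
            rw [Finset.disjoint_right]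
            intro e he he'
            exact (mem_sdiff.1 ((hP j).2.1 he)).2 he'
          · exact absurd rfl hij
      · rw [← hcard]
        rw [← hcard] at hAg
        nlinarith


/-- the deficiency bound: nothing is lost for `r ≤ 4` -/
def loss (r : ℕ) : ℕ := if r ≤ 4 then 0 else (r ^ 2 - 1) / 4

/-- packing in a regular digraph of degree `k`, up to the loss -/
theorem pack_loss {E : Finset (V × V)} (hl : Loopless E) {k : ℕ}
    (hout : ∀ v, (outN E v).card = k) (hin : ∀ v, (inN E v).card = k)
    (hn : k + 1 ≤ Fintype.card V) :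
    ∃ c, Pack E c ∧ (k + 1).choose 2 ≤ c + loss k := by
  by_cases hk : k ≤ 4
  · exact ⟨_, small hl hk hout hin (by omega), Nat.le_add_right _ _⟩
  · obtain ⟨c, hc, hle⟩ := greedy E.card E rfl hl ((bal_iff E).2 fun v => by rw [hout, hin])
    refine ⟨c, hc, ?_⟩
    rw [card_of_reg hout] at hle
    have hlt : k * (k + 2) < 4 * c := by
      by_contra hcon
      push Not at hcon
      have h1 : Fintype.card V ^ 2 * (4 * c) ≤ Fintype.card V ^ 2 * (k * (k + 2)) :=
        Nat.mul_le_mul_left _ hcon
      have h2 : c = 0 := by nlinarith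
      subst h2
      have h3 : 0 < Fintype.card V ^ 2 := pow_pos (by omega) 2
      have h4 : 0 < k := by omega
      nlinarith
    have h5 := two_choose k
    have h6 : k ^ 2 = k * k := sq k
    have h7 : k * (k + 2) = k * k + 2 * k := by ring
    have h8 : k * (k + 1) = k * k + k := by ring
    unfold loss
    rw [if_neg hk, h6]
    omega

/-- passage to the complement -/
theorem pack_cmpl {E : Finset (V × V)} (hl : Loopless E) {k r : ℕ}
    (hout : ∀ v, (outN E v).card = k) (hr : Fintype.card V = k + 1 + r) {c : ℕ}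
    (hc : Pack (cmpl E) c) :
    ∃ c', Pack E c' ∧ 2 * c + (k + 1 + r) * k ≤ 2 * c' + (k + 1 + r) * r := by
  have hHl : Loopless (cmpl E) := fun a ha => (mem_filter.1 ha).2.1
  have hHout : ∀ v, (outN (cmpl E) v).card = r := by
    intro v
    have := outN_cmpl hl v
    rw [hout v] at this
    omega
  obtain ⟨c1, h2, h3⟩ := dig_remove _ _ _ rfl hHl hc
  have h4 := pack_rev h2
  rw [← single_cmpl hl] at h4
  obtain ⟨c2, h5, h6⟩ := dig_add _ _ _ rfl hl h4
  have h7 := card_split E
  have h8 := card_split (cmpl E)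
  rw [card_of_reg hout] at h7
  rw [card_of_reg hHout] at h8
  have h9 : (single E).card = (single (cmpl E)).card := by
    rw [single_cmpl hl, card_rev]
  rw [hr] at h7 h8
  exact ⟨c2, h5, by omega⟩

theorem pack_min {E : Finset (V × V)} (hl : Loopless E) {k : ℕ}
    (hout : ∀ v, (outN E v).card = k) (hin : ∀ v, (inN E v).card = k)
    (hn : k + 1 ≤ Fintype.card V) :
    ∃ c, Pack E c ∧ (k + 1).choose 2 ≤ c + loss (min k (Fintype.card V - 1 - k)) := by
  rcases le_total k (Fintype.card V - 1 - k) with h | h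
  · rw [min_eq_left h]
    exact pack_loss hl hout hin hn
  · rw [min_eq_right h]
    obtain ⟨r, hr⟩ : ∃ r, Fintype.card V = k + 1 + r := ⟨Fintype.card V - (k + 1), by omega⟩
    have hr' : Fintype.card V - 1 - k = r := by omega
    rw [hr']
    have hHl : Loopless (cmpl E) := fun a ha => (mem_filter.1 ha).2.1
    have hHout : ∀ v, (outN (cmpl E) v).card = r := by
      intro v
      have := outN_cmpl hl v
      rw [hout v] at this
      omega
    have hHin : ∀ v, (inN (cmpl E) v).card = r := by
      intro v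
      have := inN_cmpl hl v
      rw [hin v] at this
      omega
    obtain ⟨c, hc, hle⟩ := pack_loss hHl hHout hHin (by omega)
    obtain ⟨c', hc', hle'⟩ := pack_cmpl hl hout hr hc
    refine ⟨c', hc', ?_⟩
    have h10 := two_choose k
    have h11 := two_choose r
    have h12 : 2 * (k + 1).choose 2 ≤ 2 * c' + 2 * loss r := by nlinarith
    omega

theorem result (V : Type) [Fintype V] [Nonempty V] (G : V → V → Prop) (k r : ℕ)
    (hloop : ∀ v, ¬ G v v) (hout : ∀ v, Nat.card {w // G v w} = k)
    (hin : ∀ v, Nat.card {u // G u v} = k) (hr : r = min k (Fintype.card V - 1 - k)) :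
    ∃ (N : ℕ) (C : Fin N → Equiv.Perm V),
      (k + 1).choose 2 ≤ N + (if r ≤ 4 then 0 else (r ^ 2 - 1) / 4) ∧
      (∀ i, (C i).IsCycle ∧ ∀ v, C i v ≠ v → G v (C i v)) ∧
      ∀ i j v, i ≠ j → C i v ≠ v → C i v ≠ C j v := by
  classical
  set E : Finset (V × V) := univ.filter fun a => G a.1 a.2 with hE
  have hmem : ∀ a b, (a, b) ∈ E ↔ G a b := fun a b => by simp [hE]
  have hl : Loopless E := by
    rintro ⟨a, b⟩ hab h
    simp only at h
    subst h
    exact hloop _ ((hmem _ _).1 hab)
  have hout' : ∀ v, (outN E v).card = k := by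
    intro v
    rw [← hout v, Nat.card_eq_fintype_card, Fintype.card_subtype]
    congr 1
    ext w
    rw [mem_outN, hmem]
    simp
  have hin' : ∀ v, (inN E v).card = k := by
    intro v
    rw [← hin v, Nat.card_eq_fintype_card, Fintype.card_subtype]
    congr 1
    ext w
    rw [mem_inN, hmem]
    simp
  have hn : k + 1 ≤ Fintype.card V := by
    obtain ⟨v⟩ := ‹Nonempty V›
    have := outN_cmpl hl v
    rw [hout' v] at this
    omega
  obtain ⟨N, hN, hle⟩ := pack_min hl hout' hin' hn
  obtain ⟨C, h1, h2⟩ := cycles_of_pack hl hN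
  rw [← hr] at hle
  exact ⟨N, C, hle, fun i => ⟨(h1 i).1, fun v hv => (hmem _ _).1 ((h1 i).2 v hv)⟩, h2⟩

end Pool.Agent.Results.MP_2634a8_co.Deficiency
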