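import Mathlib

set_option autoImplicit false

namespace Pool.Agent.Results.MP_2634a8_co.Fractional

open Finset

/-- A directed cycle of the digraph with arc relation `A`: `len + 2 ≥ 2` distinct vertices,
indexed cyclically by `Fin (len + 2)` (so `i + 1` is taken modulo `len + 2`), with an arc from
each vertex to the next one. -/
structure DiCycle {V : Type} (A : V → V → Prop) where
  len : ℕ
  vert : Fin (len + 2) → V
  inj : Function.Injective vert
  adj : ∀ i, A (vert i) (vert (i + 1))

/-- The directed cycle `C` uses the arc from `u` to `v`. -/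
def DiCycle.Uses {V : Type} {A : V → V → Prop} (C : DiCycle A) (u v : V) : Prop :=
  ∃ i, C.vert i = u ∧ C.vert (i + 1) = v

open Classical in
/-- A fractional packing of directed cycles: finitely many directed cycles `C j` with weights
`w j ≥ 0`, such that for every arc the weights of the cycles using it sum up to at most `1`. -/
structure FracPacking {V : Type} (A : V → V → Prop) where
  num : ℕ
  cyc : Fin num → DiCycle A
  w : Fin num → ℝ
  nonneg : ∀ j, 0 ≤ w j
  load : ∀ u v, A u v → ∑ j with (cyc j).Uses u v, w j ≤ 1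

/-- The total weight of a fractional packing. -/
noncomputable def FracPacking.total {V : Type} {A : V → V → Prop} (F : FracPacking A) : ℝ :=
  ∑ j, F.w j

/-! ### The inequality for quasi-metrics -/

section Ineq

variable {V : Type} [DecidableEq V]

theorem pair_sum (D : V → V → ℝ) (hanti : ∀ x y, 1 ≤ D x y + D y x) (N : Finset V) :
    ((#N : ℝ) * #N - #N) / 2 ≤ ∑ y ∈ N, ∑ z ∈ N.erase y, D y z := by
  have h1 : ∑ y ∈ N, ∑ z ∈ N.erase y, D y z = ∑ y ∈ N, ∑ z ∈ N.erase y, D z y := by
    rw [Finset.sum_comm' (t' := N) (s' := fun z => N.erase z)]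
    intro x y
    simp only [mem_erase]
    constructor
    · rintro ⟨h1, h2, h3⟩
      exact ⟨⟨fun h => h2 h.symm, h1⟩, h3⟩
    · rintro ⟨⟨h1, h2⟩, h3⟩
      exact ⟨h2, fun h => h1 h.symm, h3⟩
  have h2 : ∑ y ∈ N, ∑ z ∈ N.erase y, (1 : ℝ) ≤
      ∑ y ∈ N, ∑ z ∈ N.erase y, (D y z + D z y) :=
    sum_le_sum fun y _ => sum_le_sum fun z _ => hanti y z
  have h3 : ∑ y ∈ N, ∑ z ∈ N.erase y, (1 : ℝ) = (#N : ℝ) * #N - #N := by
    have : ∀ y ∈ N, ∑ z ∈ N.erase y, (1 : ℝ) = (#N : ℝ) - 1 := by
      intro y hy
      rw [sum_const, card_erase_of_mem hy, nsmul_eq_mul, mul_one]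
      have : 1 ≤ #N := card_pos.2 ⟨y, hy⟩
      push_cast [this]
      ring
    rw [sum_congr rfl this, sum_const, nsmul_eq_mul]
    ring
  have h4 : ∑ y ∈ N, ∑ z ∈ N.erase y, (D y z + D z y) =
      ∑ y ∈ N, ∑ z ∈ N.erase y, D y z + ∑ y ∈ N, ∑ z ∈ N.erase y, D z y := by
    rw [← sum_add_distrib]
    exact sum_congr rfl fun y _ => sum_add_distrib
  linarith

variable [Fintype V]

/-- the local inequality at the vertex `x` -/
theorem local_ineq (D : V → V → ℝ) (htri : ∀ x y z, D x z ≤ D x y + D y z)
    (hanti : ∀ x y, 1 ≤ D x y + D y x) (x : V) (N : Finset V) (hx : x ∉ N) :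
    (#N : ℝ) * (#N + 1) / 2 + #N * ∑ z ∈ univ.erase x, D x z ≤
      ∑ y ∈ N, ∑ z ∈ univ.erase y, D y z + (Fintype.card V : ℝ) * ∑ y ∈ N, D x y := by
  set M : Finset V := (univ.erase x) \ N with hM
  have hNsub : N ⊆ univ.erase x := by
    intro y hy
    rw [mem_erase]
    exact ⟨fun h => hx (h ▸ hy), mem_univ y⟩
  have hRx : ∑ z ∈ univ.erase x, D x z = ∑ z ∈ M, D x z + ∑ z ∈ N, D x z :=
    (sum_sdiff hNsub).symm
  have hcardM : (#M : ℝ) + #N + 1 = Fintype.card V := by
    have h1 : #M + #N = #(univ.erase x) := card_sdiff_add_card_eq_card hNsub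
    have h2 : #(univ.erase x) + 1 = Fintype.card V := by
      rw [card_erase_add_one (mem_univ x), card_univ]
    have h3 : #M + #N + 1 = Fintype.card V := by omega
    exact_mod_cast h3
  have hRy : ∀ y ∈ N, ∑ z ∈ univ.erase y, D y z =
      D y x + ∑ z ∈ N.erase y, D y z + ∑ z ∈ M, D y z := by
    intro y hy
    have hxy : x ≠ y := fun h => hx (h ▸ hy)
    have e1 : univ.erase y = insert x (N.erase y ∪ M) := by
      ext z
      simp only [mem_erase, mem_univ, and_true, mem_insert, mem_union, hM, mem_sdiff]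
      constructor
      · intro hz
        by_cases h1 : z = x
        · exact Or.inl h1
        · by_cases h2 : z ∈ N
          · exact Or.inr (Or.inl ⟨hz, h2⟩)
          · exact Or.inr (Or.inr ⟨h1, h2⟩)
      · rintro (h | ⟨h, _⟩ | ⟨_, h⟩)
        · exact h ▸ hxy
        · exact h
        · exact fun e => h (e ▸ hy)
    have e2 : x ∉ N.erase y ∪ M := by
      simp only [mem_union, mem_erase, hM, mem_sdiff, not_or, not_and]
      exact ⟨fun _ => hx, fun h => absurd rfl h.1⟩
    have e3 : Disjoint (N.erase y) M := by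
      rw [disjoint_left]
      intro z hz hz'
      rw [hM, mem_sdiff] at hz'
      exact hz'.2 (mem_of_mem_erase hz)
    rw [e1, sum_insert e2, sum_union e3]
    ring
  have h1 : ∑ y ∈ N, ∑ z ∈ univ.erase y, D y z =
      ∑ y ∈ N, D y x + ∑ y ∈ N, ∑ z ∈ N.erase y, D y z + ∑ y ∈ N, ∑ z ∈ M, D y z := by
    rw [sum_congr rfl hRy, sum_add_distrib, sum_add_distrib]
  have h2 : (#N : ℝ) - ∑ y ∈ N, D x y ≤ ∑ y ∈ N, D y x := by
    have : ∑ y ∈ N, (1 : ℝ) ≤ ∑ y ∈ N, (D x y + D y x) := sum_le_sum fun y _ => hanti x y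
    rw [sum_add_distrib, sum_const, nsmul_eq_mul, mul_one] at this
    linarith
  have h3 := pair_sum D hanti N
  have h4 : (#N : ℝ) * ∑ z ∈ M, D x z - #M * ∑ y ∈ N, D x y ≤ ∑ y ∈ N, ∑ z ∈ M, D y z := by
    have : ∑ y ∈ N, ∑ z ∈ M, (D x z - D x y) ≤ ∑ y ∈ N, ∑ z ∈ M, D y z :=
      sum_le_sum fun y _ => sum_le_sum fun z _ => by
        have := htri x y z
        linarith
    have h5 : ∑ y ∈ N, ∑ z ∈ M, (D x z - D x y) =
        (#N : ℝ) * ∑ z ∈ M, D x z - #M * ∑ y ∈ N, D x y := by
      have : ∀ y ∈ N, ∑ z ∈ M, (D x z - D x y) = ∑ z ∈ M, D x z - #M * D x y := by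
        intro y _
        rw [sum_sub_distrib, sum_const, nsmul_eq_mul]
      rw [sum_congr rfl this, sum_sub_distrib, sum_const, nsmul_eq_mul, ← mul_sum]
    linarith
  rw [h1, hRx, ← hcardM]
  nlinarith [h2, h3, h4]

open Classical in
/-- the global inequality: summing the local one over all vertices of an Eulerian digraph -/
theorem global_ineq (A : V → V → Prop) (hloop : ∀ v, ¬ A v v)
    (heul : ∀ v, #{u | A u v} = #{u | A v u})
    (D : V → V → ℝ) (htri : ∀ x y z, D x z ≤ D x y + D y z)
    (hanti : ∀ x y, 1 ≤ D x y + D y x) :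
    ∑ x, ((#{u | A x u} : ℕ) : ℝ) * ((#{u | A x u} : ℕ) + 1) / 2 ≤
      (Fintype.card V : ℝ) * ∑ x, ∑ y with A x y, D x y := by
  have h1 := sum_le_sum fun (x : V) (_ : x ∈ (univ : Finset V)) =>
    local_ineq D htri hanti x {u | A x u} (by simpa using hloop x)
  rw [sum_add_distrib, sum_add_distrib, ← mul_sum] at h1
  have h2 : ∑ x, ∑ y with A x y, ∑ z ∈ univ.erase y, D y z =
      ∑ x, ((#{u | A x u} : ℕ) : ℝ) * ∑ z ∈ univ.erase x, D x z := by
    have : ∑ x, ∑ y with A x y, ∑ z ∈ univ.erase y, D y z =
        ∑ y, ∑ x with A x y, ∑ z ∈ univ.erase y, D y z := by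
      simp only [sum_filter]
      exact sum_comm
    rw [this]
    refine sum_congr rfl fun y _ => ?_
    rw [sum_const, nsmul_eq_mul, heul]
  linarith

end Ineq

/-! ### Distances -/

section Dist

variable {V : Type}

/-- costs of the walks from `x` to `y` of positive length -/
def costs (w : V → V → ℝ) (x y : V) : Set ℝ :=
  {c | ∃ (m : ℕ) (p : ℕ → V), 1 ≤ m ∧ p 0 = x ∧ p m = y ∧ c = ∑ i ∈ range m, w (p i) (p (i + 1))}

noncomputable def dist (w : V → V → ℝ) (x y : V) : ℝ := sInf (costs w x y)

theorem costs_mem (w : V → V → ℝ) (x y : V) : w x y ∈ costs w x y := by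
  refine ⟨1, fun i => if i = 0 then x else y, le_rfl, by simp, by simp, by simp⟩

theorem costs_nonneg (w : V → V → ℝ) (hw : ∀ x y, 0 ≤ w x y) (x y : V) :
    ∀ c ∈ costs w x y, 0 ≤ c := by
  rintro c ⟨m, p, _, _, _, rfl⟩
  exact sum_nonneg fun i _ => hw _ _

theorem costs_bdd (w : V → V → ℝ) (hw : ∀ x y, 0 ≤ w x y) (x y : V) : BddBelow (costs w x y) :=
  ⟨0, fun c hc => costs_nonneg w hw x y c hc⟩

theorem costs_add (w : V → V → ℝ) {x y z : V} {c d : ℝ} (hc : c ∈ costs w x y)
    (hd : d ∈ costs w y z) : c + d ∈ costs w x z := by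
  obtain ⟨m, p, hm, hp0, hpm, rfl⟩ := hc
  obtain ⟨m', q, hm', hq0, hqm, rfl⟩ := hd
  refine ⟨m + m', fun i => if i ≤ m then p i else q (i - m), by omega, by simp [hp0], ?_, ?_⟩
  · have : ¬ (m + m' ≤ m) := by omega
    simp only [this, if_false]
    rw [Nat.add_sub_cancel_left, hqm]
  · rw [sum_range_add]
    congr 1
    · refine sum_congr rfl fun i hi => ?_
      rw [mem_range] at hi
      beta_reduce
      rw [if_pos (by omega), if_pos (by omega)]
    · refine sum_congr rfl fun i _ => ?_
      have h1 : ¬ (m + i + 1 ≤ m) := by omega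
      beta_reduce
      rw [if_neg h1]
      have h2 : m + i + 1 - m = i + 1 := by omega
      rw [h2]
      by_cases hi : i = 0
      · subst hi
        rw [if_pos (by omega)]
        show w (q 0) (q (0 + 1)) = w (p m) (q (0 + 1))
        rw [hpm, hq0]
      · rw [if_neg (by omega), Nat.add_sub_cancel_left]

theorem dist_le (w : V → V → ℝ) (hw : ∀ x y, 0 ≤ w x y) (x y : V) : dist w x y ≤ w x y :=
  csInf_le (costs_bdd w hw x y) (costs_mem w x y)

theorem dist_tri (w : V → V → ℝ) (hw : ∀ x y, 0 ≤ w x y) (x y z : V) :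
    dist w x z ≤ dist w x y + dist w y z := by
  have h1 : ∀ d ∈ costs w y z, dist w x z - d ≤ dist w x y := by
    intro d hd
    refine le_csInf ⟨_, costs_mem w x y⟩ fun c hc => ?_
    have := csInf_le (costs_bdd w hw x z) (costs_add w hc hd)
    show sInf _ - d ≤ c
    linarith
  have h2 : dist w x z - dist w x y ≤ dist w y z := by
    refine le_csInf ⟨_, costs_mem w y z⟩ fun d hd => ?_
    have := h1 d hd
    linarith
  linarith

theorem dist_anti (w : V → V → ℝ) (hcl : ∀ x, ∀ c ∈ costs w x x, 1 ≤ c) (x y : V) :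
    1 ≤ dist w x y + dist w y x := by
  have h1 : ∀ d ∈ costs w y x, 1 - d ≤ dist w x y := by
    intro d hd
    refine le_csInf ⟨_, costs_mem w x y⟩ fun c hc => ?_
    have := hcl x _ (costs_add w hc hd)
    linarith
  have h2 : 1 - dist w x y ≤ dist w y x := by
    refine le_csInf ⟨_, costs_mem w y x⟩ fun d hd => ?_
    have := h1 d hd
    linarith
  linarith

open Classical in
/-- capped weights -/
noncomputable def cap (A : V → V → Prop) (w : V → V → ℝ) (x y : V) : ℝ :=
  if A x y then min (w x y) 1 else 1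

theorem cap_nonneg (A : V → V → Prop) (w : V → V → ℝ) (hw : ∀ x y, 0 ≤ w x y) (x y : V) :
    0 ≤ cap A w x y := by
  unfold cap
  split_ifs
  · exact le_min (hw x y) zero_le_one
  · exact zero_le_one

theorem cap_lt (A : V → V → Prop) (w : V → V → ℝ) (x y : V) (h : cap A w x y < 1) :
    A x y ∧ cap A w x y = w x y := by
  unfold cap at h ⊢
  split_ifs at h ⊢ with hA
  · refine ⟨hA, ?_⟩
    rcases min_lt_iff.1 h with h1 | h1
    · exact min_eq_left h1.le
    · exact absurd h1 (lt_irrefl _)
  · exact absurd h (lt_irrefl _)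

/-- closed walks are at least as expensive as directed cycles -/
theorem closed_ge (A : V → V → Prop) (hloop : ∀ v, ¬ A v v) (w : V → V → ℝ)
    (hw : ∀ x y, 0 ≤ w x y)
    (hcyc : ∀ C : DiCycle A, 1 ≤ ∑ i, w (C.vert i) (C.vert (i + 1))) (m : ℕ) :
    ∀ p : ℕ → V, 1 ≤ m → p m = p 0 → 1 ≤ ∑ i ∈ range m, cap A w (p i) (p (i + 1)) := by
  induction m using Nat.strong_induction_on with
  | _ m ih =>
    intro p hm hp
    by_contra hlt
    push Not at hlt
    have hstep : ∀ i < m, A (p i) (p (i + 1)) ∧ cap A w (p i) (p (i + 1)) = w (p i) (p (i + 1)) := by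
      intro i hi
      apply cap_lt
      refine lt_of_le_of_lt ?_ hlt
      exact single_le_sum (f := fun i => cap A w (p i) (p (i + 1)))
        (fun j _ => cap_nonneg A w hw _ _) (mem_range.2 hi)
    have hinj : ∀ i j, i < j → j < m → p i ≠ p j := by
      intro i j hij hj heq
      have h1 := ih (j - i) (by omega) (fun t => p (i + t)) (by omega)
        (by show p (i + (j - i)) = p (i + 0); rw [Nat.add_zero, heq]; congr 1; omega)
      have h2 : ∑ t ∈ range (j - i), cap A w (p (i + t)) (p (i + (t + 1))) ≤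
          ∑ i ∈ range m, cap A w (p i) (p (i + 1)) := by
        have e1 : ∑ t ∈ range (j - i), cap A w (p (i + t)) (p (i + (t + 1))) =
            ∑ t ∈ Ico i j, cap A w (p t) (p (t + 1)) := by
          rw [sum_Ico_eq_sum_range]
          rfl
        rw [e1]
        refine sum_le_sum_of_subset_of_nonneg ?_ fun t _ _ => cap_nonneg A w hw _ _
        intro t ht
        rw [mem_Ico] at ht
        exact mem_range.2 (by omega)
      linarith
    have hm2 : 2 ≤ m := by
      by_contra h
      have h1 : m = 1 := by omega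
      subst h1
      have := (hstep 0 (by omega)).1
      rw [Nat.zero_add, hp] at this
      exact hloop _ this
    obtain ⟨l, rfl⟩ : ∃ l, m = l + 2 := ⟨m - 2, by omega⟩
    have hnext : ∀ i : Fin (l + 2), p ((i + 1 : Fin (l + 2)) : ℕ) = p (i + 1) := by
      intro i
      by_cases h : (i : ℕ) + 1 < l + 2
      · congr 1
        rw [Fin.val_add, Fin.val_one]
        exact Nat.mod_eq_of_lt h
      · have hi : (i : ℕ) + 1 = l + 2 := by omega
        rw [Fin.val_add, Fin.val_one, hi, Nat.mod_self, hp]
    let C : DiCycle A :=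
      { len := l
        vert := fun i => p i
        inj := by
          intro i j hij
          by_contra hne
          rcases lt_or_gt_of_ne hne with h | h
          · exact hinj i j h j.2 hij
          · exact hinj j i h i.2 hij.symm
        adj := by
          intro i
          show A (p i) (p ((i + 1 : Fin (l + 2)) : ℕ))
          rw [hnext]
          exact (hstep i i.2).1 }
    have h3 := hcyc C
    have h4 : ∑ i, w (C.vert i) (C.vert (i + 1)) =
        ∑ i ∈ range (l + 2), cap A w (p i) (p (i + 1)) := by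
      rw [sum_range (fun i => cap A w (p i) (p (i + 1)))]
      refine sum_congr rfl fun i _ => ?_
      show w (p i) (p ((i + 1 : Fin (l + 2)) : ℕ)) = _
      rw [hnext, (hstep i i.2).2]
    linarith

open Classical in
/-- every fractional feedback arc set of an Eulerian digraph is large -/
theorem feedback [Fintype V] (A : V → V → Prop) (hloop : ∀ v, ¬ A v v)
    (heul : ∀ v, #{u | A u v} = #{u | A v u}) (w : V → V → ℝ)
    (hw : ∀ x y, 0 ≤ w x y)
    (hcyc : ∀ C : DiCycle A, 1 ≤ ∑ i, w (C.vert i) (C.vert (i + 1))) :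
    ∑ x, ((#{u | A x u} : ℕ) : ℝ) * ((#{u | A x u} : ℕ) + 1) / 2 ≤
      (Fintype.card V : ℝ) * ∑ x, ∑ y, w x y := by
  have hcn := cap_nonneg A w hw
  refine (global_ineq A hloop heul (dist (cap A w)) (dist_tri _ hcn) (dist_anti _ ?_)).trans ?_
  · rintro x c ⟨m, p, hm, hp0, hpm, rfl⟩
    exact closed_ge A hloop w hw hcyc m p hm (hpm.trans hp0.symm)
  · refine mul_le_mul_of_nonneg_left ?_ (Nat.cast_nonneg _)
    refine sum_le_sum fun x _ => ?_
    refine (sum_le_sum (g := fun y => w x y) fun y hy => ?_).trans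
      (sum_le_sum_of_subset_of_nonneg (filter_subset _ _) fun y _ _ => hw x y)
    rw [mem_filter] at hy
    refine (dist_le _ hcn x y).trans ?_
    unfold cap
    rw [if_pos hy.2]
    exact min_le_left _ _

end Dist

/-! ### Linear programming duality -/

section Dual

variable {V : Type} [Fintype V]

open Classical in
/-- the characteristic function of the arc set of a directed cycle -/
noncomputable def chi {A : V → V → Prop} (C : DiCycle A) : V × V → ℝ :=
  fun a => if C.Uses a.1 a.2 then 1 else 0

theorem sum_chi {A : V → V → Prop} (C : DiCycle A) (c : V × V → ℝ) :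
    ∑ a, chi C a * c a = ∑ i, c (C.vert i, C.vert (i + 1)) := by
  classical
  have h1 : ∑ a, chi C a * c a =
      ∑ a ∈ univ.image (fun i => (C.vert i, C.vert (i + 1))), c a := by
    rw [← sum_filter_add_sum_filter_not univ
      (fun a => a ∈ univ.image (fun i => (C.vert i, C.vert (i + 1))))]
    have h2 : ∀ a : V × V, a ∈ univ.image (fun i => (C.vert i, C.vert (i + 1))) ↔
        C.Uses a.1 a.2 := by
      intro a
      rw [mem_image]
      constructor
      · rintro ⟨i, _, rfl⟩
        exact ⟨i, rfl, rfl⟩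
      · rintro ⟨i, h1, h2⟩
        exact ⟨i, mem_univ _, Prod.ext h1 h2⟩
    have h3 : ∑ a with ¬ a ∈ univ.image (fun i => (C.vert i, C.vert (i + 1))),
        chi C a * c a = 0 := by
      refine sum_eq_zero fun a ha => ?_
      rw [mem_filter, h2] at ha
      unfold chi
      rw [if_neg ha.2, zero_mul]
    rw [h3, add_zero, filter_mem_eq_inter, univ_inter]
    refine sum_congr rfl fun a ha => ?_
    rw [h2] at ha
    unfold chi
    rw [if_pos ha, one_mul]
  rw [h1, sum_image]
  intro i _ j _ hij
  exact C.inj (Prod.ext_iff.1 hij).1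

theorem finite_range_chi (A : V → V → Prop) :
    (Set.range (fun C : DiCycle A => chi C)).Finite := by
  refine (Set.Finite.pi' (fun _ : V × V => Set.toFinite ({0, 1} : Set ℝ))).subset ?_
  classical
  rintro _ ⟨C, rfl⟩ a
  show chi C a ∈ ({0, 1} : Set ℝ)
  unfold chi
  split_ifs <;> simp

/-- If every fractional feedback arc set has weight at least `K`, then there is a fractional
packing of directed cycles of total weight `K`. -/
theorem exists_packing (A : V → V → Prop) (K : ℝ) (hK : 0 < K)
    (hfb : ∀ w : V → V → ℝ, (∀ x y, 0 ≤ w x y) →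
      (∀ C : DiCycle A, 1 ≤ ∑ i, w (C.vert i) (C.vert (i + 1))) → K ≤ ∑ x, ∑ y, w x y) :
    ∃ F : FracPacking A, F.total = K := by
  classical
  set s : Set (V × V → ℝ) := convexHull ℝ (Set.range (fun C : DiCycle A => chi C)) with hs
  set t : Set (V × V → ℝ) := {x | ∀ a, K * x a ≤ 1} with ht
  by_cases hdisj : Disjoint s t
  · exfalso
    have hs2 : IsCompact s := (finite_range_chi A).isCompact_convexHull (𝕜 := ℝ)
    have ht1 : Convex ℝ t := by
      intro x hx y hy a b ha hb hab c
      have h1 := hx c
      have h2 := hy c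
      show K * (a * x c + b * y c) ≤ 1
      nlinarith [mul_le_mul_of_nonneg_left h1 ha, mul_le_mul_of_nonneg_left h2 hb]
    have ht2 : IsClosed t := by
      have : t = ⋂ a, {x : V × V → ℝ | K * x a ≤ 1} := by
        ext x
        simp [ht]
      rw [this]
      exact isClosed_iInter fun a => isClosed_le (continuous_const.mul (continuous_apply a))
        continuous_const
    obtain ⟨f, u, v, hf1, huv, hf2⟩ :=
      geometric_hahn_banach_compact_closed (convex_convexHull ℝ _) hs2 ht1 ht2 hdisj
    set g : V × V → ℝ := fun a => f (fun j => if a = j then 1 else 0) with hg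
    have hfg : ∀ x : V × V → ℝ, f x = ∑ a, x a * g a := by
      intro x
      have := LinearMap.pi_apply_eq_sum_univ (f : (V × V → ℝ) →ₗ[ℝ] ℝ) x
      simpa [hg, smul_eq_mul] using this
    set b0 : V × V → ℝ := fun _ => 1 / K with hb0
    have hb0t : b0 ∈ t := by
      intro a
      show K * (1 / K) ≤ 1
      rw [mul_one_div_cancel hK.ne']
    have hg0 : ∀ a, g a ≤ 0 := by
      intro a
      by_contra hpos
      push Not at hpos
      have hv := hf2 b0 hb0t
      set τ : ℝ := (f b0 - v) / g a with hτ
      have hτ0 : 0 ≤ τ := div_nonneg (by linarith) hpos.le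
      have hmem : (b0 - τ • (fun j => if a = j then (1 : ℝ) else 0)) ∈ t := by
        intro c
        show K * (1 / K - τ * (if a = c then 1 else 0)) ≤ 1
        rw [mul_sub, mul_one_div_cancel hK.ne']
        have : 0 ≤ K * (τ * (if a = c then (1 : ℝ) else 0)) := by
          split_ifs
          · positivity
          · simp
        linarith
      have h3 := hf2 _ hmem
      rw [map_sub, map_smul, smul_eq_mul] at h3
      have h4 : τ * g a = f b0 - v := by
        rw [hτ]
        field_simp
      have h5 : f (fun j => if a = j then (1 : ℝ) else 0) = g a := rfl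
      rw [h5, h4] at h3
      linarith
    have h6 : f b0 = (∑ a, g a) / K := by
      rw [hfg, sum_div]
      refine sum_congr rfl fun a _ => ?_
      show 1 / K * g a = g a / K
      ring
    have h7 : v * K < ∑ a, g a := by
      have := hf2 b0 hb0t
      rw [h6, lt_div_iff₀ hK] at this
      exact this
    have h8 : ∑ a, g a ≤ 0 := sum_nonpos fun a _ => hg0 a
    have hv0 : 0 < -v := by
      by_contra hcon
      push Not at hcon
      have : 0 ≤ v * K := mul_nonneg (by linarith) hK.le
      linarith
    have h9 := hfb (fun x y => (- g (x, y)) / (-v))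
      (fun x y => div_nonneg (by linarith [hg0 (x, y)]) hv0.le) ?_
    · have h10 : ∑ x, ∑ y, (- g (x, y)) / (-v) = (- ∑ a, g a) / (-v) := by
        rw [← sum_neg_distrib, sum_div, Fintype.sum_prod_type]
      rw [h10, le_div_iff₀ hv0] at h9
      linarith
    · intro C
      have h11 : f (chi C) < v :=
        (hf1 _ (subset_convexHull ℝ _ ⟨C, rfl⟩)).trans huv
      rw [hfg, sum_chi C g] at h11
      have h12 : ∑ i, (- g (C.vert i, C.vert (i + 1))) / (-v) =
          (- ∑ i, g (C.vert i, C.vert (i + 1))) / (-v) := by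
        rw [← sum_neg_distrib, sum_div]
      rw [h12, le_div_iff₀ hv0]
      linarith
  · rw [Set.not_disjoint_iff] at hdisj
    obtain ⟨x, hxs, hxt⟩ := hdisj
    rw [hs, mem_convexHull_iff_exists_fintype] at hxs
    obtain ⟨ι, hι, w, z, hw, hw1, hz, hx⟩ := hxs
    choose C hC using hz
    set e := Fintype.equivFin ι with he
    refine ⟨{ num := Fintype.card ι
              cyc := fun j => C (e.symm j)
              w := fun j => K * w (e.symm j)
              nonneg := fun j => mul_nonneg hK.le (hw _)
              load := ?_ }, ?_⟩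
    · intro u v _
      have h1 : ∑ j with (C (e.symm j)).Uses u v, K * w (e.symm j) = K * x (u, v) := by
        rw [← hx, Finset.sum_apply, mul_sum, sum_filter]
        rw [← Equiv.sum_comp e.symm (fun i => K * (w i • z i) (u, v))]
        refine sum_congr rfl fun j _ => ?_
        rw [← hC]
        show _ = K * (w (e.symm j) * (if (C (e.symm j)).Uses u v then 1 else 0))
        split_ifs <;> simp
      rw [h1]
      exact hxt (u, v)
    · show ∑ j, K * w (e.symm j) = K
      rw [← mul_sum, Equiv.sum_comp e.symm w, hw1, mul_one]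

end Dual

/-- The fractional packing without cycles. -/
def emptyPacking {V : Type} (A : V → V → Prop) : FracPacking A where
  num := 0
  cyc := fun j => j.elim0
  w := fun j => j.elim0
  nonneg := fun j => j.elim0
  load := fun u v _ => by simp

/-- Main theorem.
(1) Every `k`-regular finite digraph without loops and parallel arcs has a fractional packing of
directed cycles of total weight `k (k + 1) / 2`, the binomial coefficient `(k + 1) choose 2`.
(2) More generally, if every vertex `v` of a finite digraph without loops and parallel arcs has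
in-degree and out-degree both equal to `d v`, then there is a fractional packing of directed
cycles of total weight `(∑ v, d v (d v + 1) / 2) / |V|`. -/
theorem result :
    (∀ (V : Type) [Finite V] [Nonempty V] (A : V → V → Prop) (k : ℕ), (∀ v, ¬ A v v) →
      (∀ v, Nat.card {u // A v u} = k) → (∀ v, Nat.card {u // A u v} = k) →
      ∃ F : FracPacking A, F.total = ((k + 1).choose 2 : ℝ)) ∧
    (∀ (V : Type) [Fintype V] [Nonempty V] (A : V → V → Prop) (d : V → ℕ), (∀ v, ¬ A v v) →
      (∀ v, Nat.card {u // A v u} = d v) → (∀ v, Nat.card {u // A u v} = d v) →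
      ∃ F : FracPacking A,
        F.total = (∑ v, ((d v + 1).choose 2 : ℝ)) / Fintype.card V) := by
  have key : ∀ (V : Type) [Fintype V] [Nonempty V] (A : V → V → Prop) (d : V → ℕ),
      (∀ v, ¬ A v v) → (∀ v, Nat.card {u // A v u} = d v) →
      (∀ v, Nat.card {u // A u v} = d v) →
      ∃ F : FracPacking A,
        F.total = (∑ v, ((d v + 1).choose 2 : ℝ)) / Fintype.card V := by
    intro V _ _ A d hloop hout hin
    classical
    have hcard : (0 : ℝ) < Fintype.card V := by exact_mod_cast Fintype.card_pos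
    have ho : ∀ v, #{u | A v u} = d v := by
      intro v
      rw [← hout v, Nat.card_eq_fintype_card, Fintype.card_subtype]
    have hi : ∀ v, #{u | A u v} = d v := by
      intro v
      rw [← hin v, Nat.card_eq_fintype_card, Fintype.card_subtype]
    have hch : ∀ m : ℕ, (((m + 1).choose 2 : ℕ) : ℝ) = (m : ℝ) * (m + 1) / 2 := by
      intro m
      rw [Nat.cast_choose_two]
      push_cast
      ring
    set K : ℝ := (∑ v, ((d v + 1).choose 2 : ℝ)) / Fintype.card V with hKdef
    have hK0 : 0 ≤ K := div_nonneg (sum_nonneg fun v _ => Nat.cast_nonneg _) hcard.le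
    rcases hK0.eq_or_lt with h | h
    · refine ⟨emptyPacking A, ?_⟩
      rw [← h]
      show ∑ j : Fin 0, _ = (0 : ℝ)
      exact Fin.sum_univ_zero _
    · refine exists_packing A K h fun w hw hcyc => ?_
      have h1 := feedback A hloop (fun v => by rw [ho, hi]) w hw hcyc
      rw [hKdef, div_le_iff₀ hcard]
      have h2 : ∑ v, ((d v + 1).choose 2 : ℝ) =
          ∑ x, ((#{u | A x u} : ℕ) : ℝ) * ((#{u | A x u} : ℕ) + 1) / 2 := by
        refine sum_congr rfl fun v _ => ?_
        rw [ho, hch]
      rw [h2, mul_comm]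
      exact h1
  refine ⟨?_, key⟩
  intro V _ _ A k hloop hout hin
  have := Fintype.ofFinite V
  obtain ⟨F, hF⟩ := key V A (fun _ => k) hloop hout hin
  refine ⟨F, hF.trans ?_⟩
  have hcard : (0 : ℝ) < Fintype.card V := by exact_mod_cast Fintype.card_pos
  rw [sum_const, card_univ, nsmul_eq_mul]
  field_simp

end Pool.Agent.Results.MP_2634a8_co.Fractional
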