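import Mathlib

set_option autoImplicit false

namespace Pool.Agent.Results.MP_2634a8_co.HalfPacking

open Finset

/-- A directed cycle of the digraph with arc relation `A`: `len + 2 ≥ 2` distinct vertices,
indexed cyclically by `Fin (len + 2)` (so `i + 1` is taken modulo `len + 2`), with an arc from
each vertex to the next one. -/
structure DiCycle {V : Type} (A : V → V → Prop) where
  len : ℕ
  vert : Fin (len + 2) → V
  inj : Function.Injective vert
  adj : ∀ i, A (vert i) (vert (i + 1))

/-- The directed cycle `C` uses the arc from `u` to `v`. -/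
def DiCycle.Uses {V : Type} {A : V → V → Prop} (C : DiCycle A) (u v : V) : Prop :=
  ∃ i, C.vert i = u ∧ C.vert (i + 1) = v

/-! ### The inequality for quasi-metrics -/

section Ineq

variable {V : Type} [DecidableEq V]

theorem pair_sum (D : V → V → ℝ) (hanti : ∀ x y, 1 ≤ D x y + D y x) (N : Finset V) :
    ((#N : ℝ) * #N - #N) / 2 ≤ ∑ y ∈ N, ∑ z ∈ N.erase y, D y z := by
  have h1 : ∑ y ∈ N, ∑ z ∈ N.erase y, D y z = ∑ y ∈ N, ∑ z ∈ N.erase y, D z y := by
    rw [Finset.sum_comm' (t' := N) (s' := fun z => N.erase z)]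
    intro x y
    simp only [mem_erase]
    constructor
    · rintro ⟨h1, h2, h3⟩
      exact ⟨⟨fun h => h2 h.symm, h1⟩, h3⟩
    · rintro ⟨⟨h1, h2⟩, h3⟩
      exact ⟨h2, fun h => h1 h.symm, h3⟩
  have h2 : ∑ y ∈ N, ∑ z ∈ N.erase y, (1 : ℝ) ≤
      ∑ y ∈ N, ∑ z ∈ N.erase y, (D y z + D z y) :=
    sum_le_sum fun y _ => sum_le_sum fun z _ => hanti y z
  have h3 : ∑ y ∈ N, ∑ z ∈ N.erase y, (1 : ℝ) = (#N : ℝ) * #N - #N := by
    have : ∀ y ∈ N, ∑ z ∈ N.erase y, (1 : ℝ) = (#N : ℝ) - 1 := by
      intro y hy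
      rw [sum_const, card_erase_of_mem hy, nsmul_eq_mul, mul_one]
      have : 1 ≤ #N := card_pos.2 ⟨y, hy⟩
      push_cast [this]
      ring
    rw [sum_congr rfl this, sum_const, nsmul_eq_mul]
    ring
  have h4 : ∑ y ∈ N, ∑ z ∈ N.erase y, (D y z + D z y) =
      ∑ y ∈ N, ∑ z ∈ N.erase y, D y z + ∑ y ∈ N, ∑ z ∈ N.erase y, D z y := by
    rw [← sum_add_distrib]
    exact sum_congr rfl fun y _ => sum_add_distrib
  linarith

variable [Fintype V]

/-- the local inequality at the vertex `x` -/
theorem local_ineq (D : V → V → ℝ) (htri : ∀ x y z, D x z ≤ D x y + D y z)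
    (hanti : ∀ x y, 1 ≤ D x y + D y x) (x : V) (N : Finset V) (hx : x ∉ N) :
    (#N : ℝ) * (#N + 1) / 2 + #N * ∑ z ∈ univ.erase x, D x z ≤
      ∑ y ∈ N, ∑ z ∈ univ.erase y, D y z + (Fintype.card V : ℝ) * ∑ y ∈ N, D x y := by
  set M : Finset V := (univ.erase x) \ N with hM
  have hNsub : N ⊆ univ.erase x := by
    intro y hy
    rw [mem_erase]
    exact ⟨fun h => hx (h ▸ hy), mem_univ y⟩
  have hRx : ∑ z ∈ univ.erase x, D x z = ∑ z ∈ M, D x z + ∑ z ∈ N, D x z :=
    (sum_sdiff hNsub).symm
  have hcardM : (#M : ℝ) + #N + 1 = Fintype.card V := by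
    have h1 : #M + #N = #(univ.erase x) := card_sdiff_add_card_eq_card hNsub
    have h2 : #(univ.erase x) + 1 = Fintype.card V := by
      rw [card_erase_add_one (mem_univ x), card_univ]
    have h3 : #M + #N + 1 = Fintype.card V := by omega
    exact_mod_cast h3
  have hRy : ∀ y ∈ N, ∑ z ∈ univ.erase y, D y z =
      D y x + ∑ z ∈ N.erase y, D y z + ∑ z ∈ M, D y z := by
    intro y hy
    have hxy : x ≠ y := fun h => hx (h ▸ hy)
    have e1 : univ.erase y = insert x (N.erase y ∪ M) := by
      ext z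
      simp only [mem_erase, mem_univ, and_true, mem_insert, mem_union, hM, mem_sdiff]
      constructor
      · intro hz
        by_cases h1 : z = x
        · exact Or.inl h1
        · by_cases h2 : z ∈ N
          · exact Or.inr (Or.inl ⟨hz, h2⟩)
          · exact Or.inr (Or.inr ⟨h1, h2⟩)
      · rintro (h | ⟨h, _⟩ | ⟨_, h⟩)
        · exact h ▸ hxy
        · exact h
        · exact fun e => h (e ▸ hy)
    have e2 : x ∉ N.erase y ∪ M := by
      simp only [mem_union, mem_erase, hM, mem_sdiff, not_or, not_and]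
      exact ⟨fun _ => hx, fun h => absurd rfl h.1⟩
    have e3 : Disjoint (N.erase y) M := by
      rw [disjoint_left]
      intro z hz hz'
      rw [hM, mem_sdiff] at hz'
      exact hz'.2 (mem_of_mem_erase hz)
    rw [e1, sum_insert e2, sum_union e3]
    ring
  have h1 : ∑ y ∈ N, ∑ z ∈ univ.erase y, D y z =
      ∑ y ∈ N, D y x + ∑ y ∈ N, ∑ z ∈ N.erase y, D y z + ∑ y ∈ N, ∑ z ∈ M, D y z := by
    rw [sum_congr rfl hRy, sum_add_distrib, sum_add_distrib]
  have h2 : (#N : ℝ) - ∑ y ∈ N, D x y ≤ ∑ y ∈ N, D y x := by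
    have : ∑ y ∈ N, (1 : ℝ) ≤ ∑ y ∈ N, (D x y + D y x) := sum_le_sum fun y _ => hanti x y
    rw [sum_add_distrib, sum_const, nsmul_eq_mul, mul_one] at this
    linarith
  have h3 := pair_sum D hanti N
  have h4 : (#N : ℝ) * ∑ z ∈ M, D x z - #M * ∑ y ∈ N, D x y ≤ ∑ y ∈ N, ∑ z ∈ M, D y z := by
    have : ∑ y ∈ N, ∑ z ∈ M, (D x z - D x y) ≤ ∑ y ∈ N, ∑ z ∈ M, D y z :=
      sum_le_sum fun y _ => sum_le_sum fun z _ => by
        have := htri x y z
        linarith
    have h5 : ∑ y ∈ N, ∑ z ∈ M, (D x z - D x y) =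
        (#N : ℝ) * ∑ z ∈ M, D x z - #M * ∑ y ∈ N, D x y := by
      have : ∀ y ∈ N, ∑ z ∈ M, (D x z - D x y) = ∑ z ∈ M, D x z - #M * D x y := by
        intro y _
        rw [sum_sub_distrib, sum_const, nsmul_eq_mul]
      rw [sum_congr rfl this, sum_sub_distrib, sum_const, nsmul_eq_mul, ← mul_sum]
    linarith
  rw [h1, hRx, ← hcardM]
  nlinarith [h2, h3, h4]

open Classical in
/-- the global inequality: summing the local one over all vertices of an Eulerian digraph -/
theorem global_ineq (A : V → V → Prop) (hloop : ∀ v, ¬ A v v)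
    (heul : ∀ v, #{u | A u v} = #{u | A v u})
    (D : V → V → ℝ) (htri : ∀ x y z, D x z ≤ D x y + D y z)
    (hanti : ∀ x y, 1 ≤ D x y + D y x) :
    ∑ x, ((#{u | A x u} : ℕ) : ℝ) * ((#{u | A x u} : ℕ) + 1) / 2 ≤
      (Fintype.card V : ℝ) * ∑ x, ∑ y with A x y, D x y := by
  have h1 := sum_le_sum fun (x : V) (_ : x ∈ (univ : Finset V)) =>
    local_ineq D htri hanti x {u | A x u} (by simpa using hloop x)
  rw [sum_add_distrib, sum_add_distrib, ← mul_sum] at h1
  have h2 : ∑ x, ∑ y with A x y, ∑ z ∈ univ.erase y, D y z =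
      ∑ x, ((#{u | A x u} : ℕ) : ℝ) * ∑ z ∈ univ.erase x, D x z := by
    have : ∑ x, ∑ y with A x y, ∑ z ∈ univ.erase y, D y z =
        ∑ y, ∑ x with A x y, ∑ z ∈ univ.erase y, D y z := by
      simp only [sum_filter]
      exact sum_comm
    rw [this]
    refine sum_congr rfl fun y _ => ?_
    rw [sum_const, nsmul_eq_mul, heul]
  linarith

end Ineq

/-! ### Distances -/

section Dist

variable {V : Type}

/-- costs of the walks from `x` to `y` of positive length -/
def costs (w : V → V → ℝ) (x y : V) : Set ℝ :=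
  {c | ∃ (m : ℕ) (p : ℕ → V), 1 ≤ m ∧ p 0 = x ∧ p m = y ∧ c = ∑ i ∈ range m, w (p i) (p (i + 1))}

noncomputable def dist (w : V → V → ℝ) (x y : V) : ℝ := sInf (costs w x y)

theorem costs_mem (w : V → V → ℝ) (x y : V) : w x y ∈ costs w x y := by
  refine ⟨1, fun i => if i = 0 then x else y, le_rfl, by simp, by simp, by simp⟩

theorem costs_nonneg (w : V → V → ℝ) (hw : ∀ x y, 0 ≤ w x y) (x y : V) :
    ∀ c ∈ costs w x y, 0 ≤ c := by
  rintro c ⟨m, p, _, _, _, rfl⟩
  exact sum_nonneg fun i _ => hw _ _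

theorem costs_bdd (w : V → V → ℝ) (hw : ∀ x y, 0 ≤ w x y) (x y : V) : BddBelow (costs w x y) :=
  ⟨0, fun c hc => costs_nonneg w hw x y c hc⟩

theorem costs_add (w : V → V → ℝ) {x y z : V} {c d : ℝ} (hc : c ∈ costs w x y)
    (hd : d ∈ costs w y z) : c + d ∈ costs w x z := by
  obtain ⟨m, p, hm, hp0, hpm, rfl⟩ := hc
  obtain ⟨m', q, hm', hq0, hqm, rfl⟩ := hd
  refine ⟨m + m', fun i => if i ≤ m then p i else q (i - m), by omega, by simp [hp0], ?_, ?_⟩
  · have : ¬ (m + m' ≤ m) := by omega
    simp only [this, if_false]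
    rw [Nat.add_sub_cancel_left, hqm]
  · rw [sum_range_add]
    congr 1
    · refine sum_congr rfl fun i hi => ?_
      rw [mem_range] at hi
      beta_reduce
      rw [if_pos (by omega), if_pos (by omega)]
    · refine sum_congr rfl fun i _ => ?_
      have h1 : ¬ (m + i + 1 ≤ m) := by omega
      beta_reduce
      rw [if_neg h1]
      have h2 : m + i + 1 - m = i + 1 := by omega
      rw [h2]
      by_cases hi : i = 0
      · subst hi
        rw [if_pos (by omega)]
        show w (q 0) (q (0 + 1)) = w (p m) (q (0 + 1))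
        rw [hpm, hq0]
      · rw [if_neg (by omega), Nat.add_sub_cancel_left]

theorem dist_le (w : V → V → ℝ) (hw : ∀ x y, 0 ≤ w x y) (x y : V) : dist w x y ≤ w x y :=
  csInf_le (costs_bdd w hw x y) (costs_mem w x y)

theorem dist_tri (w : V → V → ℝ) (hw : ∀ x y, 0 ≤ w x y) (x y z : V) :
    dist w x z ≤ dist w x y + dist w y z := by
  have h1 : ∀ d ∈ costs w y z, dist w x z - d ≤ dist w x y := by
    intro d hd
    refine le_csInf ⟨_, costs_mem w x y⟩ fun c hc => ?_
    have := csInf_le (costs_bdd w hw x z) (costs_add w hc hd)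
    show sInf _ - d ≤ c
    linarith
  have h2 : dist w x z - dist w x y ≤ dist w y z := by
    refine le_csInf ⟨_, costs_mem w y z⟩ fun d hd => ?_
    have := h1 d hd
    linarith
  linarith

theorem dist_anti (w : V → V → ℝ) (hcl : ∀ x, ∀ c ∈ costs w x x, 1 ≤ c) (x y : V) :
    1 ≤ dist w x y + dist w y x := by
  have h1 : ∀ d ∈ costs w y x, 1 - d ≤ dist w x y := by
    intro d hd
    refine le_csInf ⟨_, costs_mem w x y⟩ fun c hc => ?_
    have := hcl x _ (costs_add w hc hd)
    linarith
  have h2 : 1 - dist w x y ≤ dist w y x := by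
    refine le_csInf ⟨_, costs_mem w y x⟩ fun d hd => ?_
    have := h1 d hd
    linarith
  linarith

open Classical in
/-- capped weights -/
noncomputable def cap (A : V → V → Prop) (w : V → V → ℝ) (x y : V) : ℝ :=
  if A x y then min (w x y) 1 else 1

theorem cap_nonneg (A : V → V → Prop) (w : V → V → ℝ) (hw : ∀ x y, 0 ≤ w x y) (x y : V) :
    0 ≤ cap A w x y := by
  unfold cap
  split_ifs
  · exact le_min (hw x y) zero_le_one
  · exact zero_le_one

theorem cap_lt (A : V → V → Prop) (w : V → V → ℝ) (x y : V) (h : cap A w x y < 1) :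
    A x y ∧ cap A w x y = w x y := by
  unfold cap at h ⊢
  split_ifs at h ⊢ with hA
  · refine ⟨hA, ?_⟩
    rcases min_lt_iff.1 h with h1 | h1
    · exact min_eq_left h1.le
    · exact absurd h1 (lt_irrefl _)
  · exact absurd h (lt_irrefl _)

/-- closed walks are at least as expensive as directed cycles -/
theorem closed_ge (A : V → V → Prop) (hloop : ∀ v, ¬ A v v) (w : V → V → ℝ)
    (hw : ∀ x y, 0 ≤ w x y)
    (hcyc : ∀ C : DiCycle A, 1 ≤ ∑ i, w (C.vert i) (C.vert (i + 1))) (m : ℕ) :
    ∀ p : ℕ → V, 1 ≤ m → p m = p 0 → 1 ≤ ∑ i ∈ range m, cap A w (p i) (p (i + 1)) := by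
  induction m using Nat.strong_induction_on with
  | _ m ih =>
    intro p hm hp
    by_contra hlt
    push Not at hlt
    have hstep : ∀ i < m, A (p i) (p (i + 1)) ∧ cap A w (p i) (p (i + 1)) = w (p i) (p (i + 1)) := by
      intro i hi
      apply cap_lt
      refine lt_of_le_of_lt ?_ hlt
      exact single_le_sum (f := fun i => cap A w (p i) (p (i + 1)))
        (fun j _ => cap_nonneg A w hw _ _) (mem_range.2 hi)
    have hinj : ∀ i j, i < j → j < m → p i ≠ p j := by
      intro i j hij hj heq
      have h1 := ih (j - i) (by omega) (fun t => p (i + t)) (by omega)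
        (by show p (i + (j - i)) = p (i + 0); rw [Nat.add_zero, heq]; congr 1; omega)
      have h2 : ∑ t ∈ range (j - i), cap A w (p (i + t)) (p (i + (t + 1))) ≤
          ∑ i ∈ range m, cap A w (p i) (p (i + 1)) := by
        have e1 : ∑ t ∈ range (j - i), cap A w (p (i + t)) (p (i + (t + 1))) =
            ∑ t ∈ Ico i j, cap A w (p t) (p (t + 1)) := by
          rw [sum_Ico_eq_sum_range]
          rfl
        rw [e1]
        refine sum_le_sum_of_subset_of_nonneg ?_ fun t _ _ => cap_nonneg A w hw _ _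
        intro t ht
        rw [mem_Ico] at ht
        exact mem_range.2 (by omega)
      linarith
    have hm2 : 2 ≤ m := by
      by_contra h
      have h1 : m = 1 := by omega
      subst h1
      have := (hstep 0 (by omega)).1
      rw [Nat.zero_add, hp] at this
      exact hloop _ this
    obtain ⟨l, rfl⟩ : ∃ l, m = l + 2 := ⟨m - 2, by omega⟩
    have hnext : ∀ i : Fin (l + 2), p ((i + 1 : Fin (l + 2)) : ℕ) = p (i + 1) := by
      intro i
      by_cases h : (i : ℕ) + 1 < l + 2
      · congr 1
        rw [Fin.val_add, Fin.val_one]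
        exact Nat.mod_eq_of_lt h
      · have hi : (i : ℕ) + 1 = l + 2 := by omega
        rw [Fin.val_add, Fin.val_one, hi, Nat.mod_self, hp]
    let C : DiCycle A :=
      { len := l
        vert := fun i => p i
        inj := by
          intro i j hij
          by_contra hne
          rcases lt_or_gt_of_ne hne with h | h
          · exact hinj i j h j.2 hij
          · exact hinj j i h i.2 hij.symm
        adj := by
          intro i
          show A (p i) (p ((i + 1 : Fin (l + 2)) : ℕ))
          rw [hnext]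
          exact (hstep i i.2).1 }
    have h3 := hcyc C
    have h4 : ∑ i, w (C.vert i) (C.vert (i + 1)) =
        ∑ i ∈ range (l + 2), cap A w (p i) (p (i + 1)) := by
      rw [sum_range (fun i => cap A w (p i) (p (i + 1)))]
      refine sum_congr rfl fun i _ => ?_
      show w (p i) (p ((i + 1 : Fin (l + 2)) : ℕ)) = _
      rw [hnext, (hstep i i.2).2]
    linarith

open Classical in
/-- every fractional feedback arc set of an Eulerian digraph is large -/
theorem feedback [Fintype V] (A : V → V → Prop) (hloop : ∀ v, ¬ A v v)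
    (heul : ∀ v, #{u | A u v} = #{u | A v u}) (w : V → V → ℝ)
    (hw : ∀ x y, 0 ≤ w x y)
    (hcyc : ∀ C : DiCycle A, 1 ≤ ∑ i, w (C.vert i) (C.vert (i + 1))) :
    ∑ x, ((#{u | A x u} : ℕ) : ℝ) * ((#{u | A x u} : ℕ) + 1) / 2 ≤
      (Fintype.card V : ℝ) * ∑ x, ∑ y, w x y := by
  have hcn := cap_nonneg A w hw
  refine (global_ineq A hloop heul (dist (cap A w)) (dist_tri _ hcn) (dist_anti _ ?_)).trans ?_
  · rintro x c ⟨m, p, hm, hp0, hpm, rfl⟩
    exact closed_ge A hloop w hw hcyc m p hm (hpm.trans hp0.symm)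
  · refine mul_le_mul_of_nonneg_left ?_ (Nat.cast_nonneg _)
    refine sum_le_sum fun x _ => ?_
    refine (sum_le_sum (g := fun y => w x y) fun y hy => ?_).trans
      (sum_le_sum_of_subset_of_nonneg (filter_subset _ _) fun y _ _ => hw x y)
    rw [mem_filter] at hy
    refine (dist_le _ hcn x y).trans ?_
    unfold cap
    rw [if_pos hy.2]
    exact min_le_left _ _

end Dist

/-! ### Removing a shortest cycle -/

section Greedy

variable {V : Type}

/-- The digraph without the arcs used by the directed cycle `C`. -/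
def del {A : V → V → Prop} (C : DiCycle A) (u v : V) : Prop := A u v ∧ ¬ C.Uses u v

theorem uses_adj {A : V → V → Prop} (C : DiCycle A) {u v : V} (h : C.Uses u v) : A u v := by
  obtain ⟨i, rfl, rfl⟩ := h
  exact C.adj i

/-- A directed cycle of a smaller digraph is one of the larger digraph. -/
def DiCycle.up {A B : V → V → Prop} (h : ∀ u v, A u v → B u v) (C : DiCycle A) : DiCycle B where
  len := C.len
  vert := C.vert
  inj := C.inj
  adj := fun i => h _ _ (C.adj i)

theorem uses_out {A : V → V → Prop} (C : DiCycle A) (i : Fin (C.len + 2)) (u : V) :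
    C.Uses (C.vert i) u ↔ u = C.vert (i + 1) := by
  constructor
  · rintro ⟨j, h1, rfl⟩
    rw [C.inj h1]
  · rintro rfl
    exact ⟨i, rfl, rfl⟩

theorem uses_in {A : V → V → Prop} (C : DiCycle A) (i : Fin (C.len + 2)) (u : V) :
    C.Uses u (C.vert i) ↔ u = C.vert (i - 1) := by
  constructor
  · rintro ⟨j, rfl, h1⟩
    rw [← C.inj h1, add_sub_cancel_right]
  · rintro rfl
    exact ⟨i - 1, rfl, by rw [sub_add_cancel]⟩

variable [Fintype V]

open Classical in
theorem uses_card {A : V → V → Prop} (C : DiCycle A) (v : V) :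
    #{u | C.Uses u v} = #{u | C.Uses v u} := by
  by_cases h : ∃ i, C.vert i = v
  · obtain ⟨i, rfl⟩ := h
    have h1 : ({u | C.Uses u (C.vert i)} : Finset V) = {C.vert (i - 1)} := by
      ext u
      simp [uses_in]
    have h2 : ({u | C.Uses (C.vert i) u} : Finset V) = {C.vert (i + 1)} := by
      ext u
      simp [uses_out]
    rw [h1, h2, card_singleton, card_singleton]
  · have h1 : ({u | C.Uses u v} : Finset V) = ∅ := by
      rw [filter_eq_empty_iff]
      rintro u _ ⟨i, _, hi⟩
      exact h ⟨_, hi⟩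
    have h2 : ({u | C.Uses v u} : Finset V) = ∅ := by
      rw [filter_eq_empty_iff]
      rintro u _ ⟨i, hi, _⟩
      exact h ⟨_, hi⟩
    rw [h1, h2]

open Classical in
theorem uses_total {A : V → V → Prop} (C : DiCycle A) :
    ∑ v, #{u | C.Uses v u} = C.len + 2 := by
  have h1 : ∑ v, #{u | C.Uses v u} = ∑ v ∈ univ.image C.vert, 1 := by
    symm
    rw [← sum_subset (subset_univ (univ.image C.vert))]
    · refine sum_congr rfl fun v hv => ?_
      rw [mem_image] at hv
      obtain ⟨i, _, rfl⟩ := hv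
      have h2 : ({u | C.Uses (C.vert i) u} : Finset V) = {C.vert (i + 1)} := by
        ext u
        simp [uses_out]
      rw [h2, card_singleton]
    · intro v _ hv
      rw [card_eq_zero, filter_eq_empty_iff]
      rintro u _ ⟨i, hi, _⟩
      exact hv (mem_image.2 ⟨i, mem_univ _, hi⟩)
  rw [h1, sum_const, smul_eq_mul, mul_one, card_image_of_injective _ C.inj, card_univ,
    Fintype.card_fin]

open Classical in
theorem del_out {A : V → V → Prop} (C : DiCycle A) (v : V) :
    #{u | del C v u} + #{u | C.Uses v u} = #{u | A v u} := by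
  rw [← card_filter_add_card_filter_not (s := ({u | A v u} : Finset V)) (fun u => C.Uses v u),
    filter_filter, filter_filter, add_comm]
  congr 1
  · congr 1
    ext u
    simp only [mem_filter, mem_univ, true_and]
    exact ⟨fun h => ⟨uses_adj C h, h⟩, fun h => h.2⟩
  · congr 1
    ext u
    rw [mem_filter, mem_filter]
    exact Iff.rfl

open Classical in
theorem del_in {A : V → V → Prop} (C : DiCycle A) (v : V) :
    #{u | del C u v} + #{u | C.Uses u v} = #{u | A u v} := by
  rw [← card_filter_add_card_filter_not (s := ({u | A u v} : Finset V)) (fun u => C.Uses u v),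
    filter_filter, filter_filter, add_comm]
  congr 1
  · congr 1
    ext u
    simp only [mem_filter, mem_univ, true_and]
    exact ⟨fun h => ⟨uses_adj C h, h⟩, fun h => h.2⟩
  · congr 1
    ext u
    rw [mem_filter, mem_filter]
    exact Iff.rfl

open Classical in
/-- In an Eulerian digraph with `m > 0` arcs and `n` vertices there is a directed cycle with `g`
arcs, where `g * (m + n) ≤ 2 * n ^ 2`. -/
theorem short_cycle (A : V → V → Prop) (hloop : ∀ v, ¬ A v v)
    (heul : ∀ v, #{u | A u v} = #{u | A v u}) (hm : 0 < ∑ v, #{u | A v u}) :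
    ∃ C : DiCycle A, (C.len + 2) * (∑ v, #{u | A v u} + Fintype.card V) ≤
      2 * Fintype.card V ^ 2 := by
  set m : ℕ := ∑ v, #{u | A v u} with hmdef
  set n : ℕ := Fintype.card V with hn
  have hsum : ((∑ v, (#{u | A v u} : ℕ) : ℕ) : ℝ) = ∑ v, ((#{u | A v u} : ℕ) : ℝ) := by
    push_cast
    rfl
  have hCS : (m : ℝ) ^ 2 ≤ n * ∑ v, ((#{u | A v u} : ℕ) : ℝ) ^ 2 := by
    have := sq_sum_le_card_mul_sum_sq (s := (univ : Finset V))
      (f := fun v => ((#{u | A v u} : ℕ) : ℝ))
    rw [card_univ, ← hsum] at this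
    exact this
  have hhalf : ∑ x, ((#{u | A x u} : ℕ) : ℝ) * ((#{u | A x u} : ℕ) + 1) / 2 =
      (∑ v, ((#{u | A v u} : ℕ) : ℝ) ^ 2 + m) / 2 := by
    rw [hmdef, hsum, ← sum_add_distrib, sum_div]
    exact sum_congr rfl fun v _ => by ring
  have hmR : (0 : ℝ) < m := by exact_mod_cast hm
  have hex : ∃ g : ℕ, ∃ C : DiCycle A, C.len + 2 = g := by
    by_contra hno
    push Not at hno
    have h1 := feedback A hloop heul (fun _ _ => 0) (fun _ _ => le_rfl)
      (fun C => absurd rfl (hno _ C))
    rw [hhalf] at h1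
    simp only [sum_const_zero, mul_zero] at h1
    have h2 : (0 : ℝ) ≤ ∑ v, ((#{u | A v u} : ℕ) : ℝ) ^ 2 := sum_nonneg fun v _ => sq_nonneg _
    linarith
  obtain ⟨C, hC⟩ := Nat.find_spec hex
  have hmin : ∀ D : DiCycle A, C.len + 2 ≤ D.len + 2 := by
    intro D
    rw [hC]
    exact Nat.find_min' hex ⟨D, rfl⟩
  refine ⟨C, ?_⟩
  set g : ℕ := C.len + 2 with hg
  have hgR : (0 : ℝ) < g := by
    have : 0 < g := by omega
    exact_mod_cast this
  have h1 := feedback A hloop heul (fun x y => if A x y then 1 / (g : ℝ) else 0)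
    (fun x y => by
      show (0 : ℝ) ≤ if A x y then 1 / (g : ℝ) else 0
      split_ifs
      · positivity
      · exact le_rfl)
    (fun D => by
      show (1 : ℝ) ≤ ∑ i, if A (D.vert i) (D.vert (i + 1)) then 1 / (g : ℝ) else 0
      have h2 : ∀ i ∈ (univ : Finset (Fin (D.len + 2))),
          (if A (D.vert i) (D.vert (i + 1)) then 1 / (g : ℝ) else 0) = 1 / (g : ℝ) :=
        fun i _ => if_pos (D.adj i)
      rw [sum_congr rfl h2, sum_const, card_univ, Fintype.card_fin, nsmul_eq_mul,
        mul_one_div, le_div_iff₀ hgR, one_mul]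
      exact_mod_cast hmin D)
  have h3 : ∑ x, ∑ y, (if A x y then 1 / (g : ℝ) else 0) = m / g := by
    have : ∀ x ∈ (univ : Finset V), ∑ y, (if A x y then 1 / (g : ℝ) else 0) =
        ((#{u | A x u} : ℕ) : ℝ) / g := by
      intro x _
      rw [← sum_filter, sum_const, nsmul_eq_mul, mul_one_div]
    rw [sum_congr rfl this, ← sum_div, hmdef, hsum]
  rw [hhalf, h3] at h1
  have hnR : (0 : ℝ) ≤ n := Nat.cast_nonneg n
  have h4 : ((∑ v, ((#{u | A v u} : ℕ) : ℝ) ^ 2 + m) / 2) * (g : ℝ) ≤ n * m := by
    have := mul_le_mul_of_nonneg_right h1 hgR.le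
    have e : (n : ℝ) * (m / g) * g = n * m := by field_simp
    linarith
  have h5 : ((g : ℝ) * (m + n)) * m ≤ (2 * n ^ 2) * m := by
    have h6 := mul_le_mul_of_nonneg_left h4 hnR
    have h7 := mul_le_mul_of_nonneg_right hCS hgR.le
    nlinarith
  have h8 : (g : ℝ) * (m + n) ≤ 2 * n ^ 2 := le_of_mul_le_mul_right h5 hmR
  exact_mod_cast h8

open Classical in
/-- Every Eulerian digraph with `m` arcs and `n` vertices, without loops and parallel arcs, has
`N` pairwise arc-disjoint directed cycles with `m * (m + 2 * n) ≤ 4 * n ^ 2 * N`. -/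
theorem greedy (m : ℕ) : ∀ (A : V → V → Prop), (∀ v, ¬ A v v) →
    (∀ v, #{u | A u v} = #{u | A v u}) → ∑ v, #{u | A v u} = m →
    ∃ (N : ℕ) (C : Fin N → DiCycle A),
      (∀ i j, i ≠ j → ∀ u v, (C i).Uses u v → ¬ (C j).Uses u v) ∧
      m * (m + 2 * Fintype.card V) ≤ 4 * Fintype.card V ^ 2 * N := by
  induction m using Nat.strong_induction_on with
  | _ m ih =>
    intro A hloop heul hm
    rcases Nat.eq_zero_or_pos m with h0 | hpos
    · subst h0
      exact ⟨0, fun i => i.elim0, fun i => i.elim0, by simp⟩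
    · obtain ⟨C, hC⟩ := short_cycle A hloop heul (by rw [hm]; exact hpos)
      rw [hm] at hC
      have hm' : ∑ v, #{u | del C v u} + (C.len + 2) = m := by
        rw [← uses_total C, ← sum_add_distrib, ← hm]
        exact sum_congr rfl fun v _ => del_out C v
      obtain ⟨N, D, hD, hN⟩ := ih (∑ v, #{u | del C v u}) (by omega) (del C)
        (fun v h => hloop v h.1)
        (fun v => by
          have h1 := del_out C v
          have h2 := del_in C v
          have h3 := uses_card C v
          have h4 := heul v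
          omega) rfl
      set m' : ℕ := ∑ v, #{u | del C v u} with hm'def
      have hup : ∀ u v, del C u v → A u v := fun u v h => h.1
      refine ⟨N + 1, Fin.cons C (fun i => (D i).up hup), ?_, ?_⟩
      · have hnot : ∀ i u v, ((D i).up hup).Uses u v → ¬ C.Uses u v := by
          rintro i u v ⟨j, rfl, rfl⟩
          exact ((D i).adj j).2
        intro i
        refine Fin.cases ?_ ?_ i
        · intro j
          refine Fin.cases ?_ ?_ j
          · intro h
            exact absurd rfl h
          · intro j _ u v h1 h2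
            rw [Fin.cons_zero] at h1
            rw [Fin.cons_succ] at h2
            exact hnot j u v h2 h1
        · intro i j
          refine Fin.cases ?_ ?_ j
          · intro _ u v h1 h2
            rw [Fin.cons_zero] at h2
            rw [Fin.cons_succ] at h1
            exact hnot i u v h1 h2
          · intro j hij u v h1 h2
            rw [Fin.cons_succ] at h1 h2
            exact hD i j (fun h => hij (by rw [h])) u v h1 h2
      · set n : ℕ := Fintype.card V
        set g : ℕ := C.len + 2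
        have h1 : m = m' + g := hm'.symm
        subst h1
        nlinarith [Nat.zero_le (g * g)]

end Greedy

/-- Main theorem: every `k`-regular finite digraph without loops and parallel arcs has at least
`k (k + 2) / 4` pairwise arc-disjoint directed cycles. -/
theorem result (V : Type) [Finite V] [Nonempty V] (A : V → V → Prop) (k : ℕ)
    (hloop : ∀ v, ¬ A v v) (hout : ∀ v, Nat.card {u // A v u} = k)
    (hin : ∀ v, Nat.card {u // A u v} = k) :
    ∃ (N : ℕ) (C : Fin N → DiCycle A),
      (∀ i j, i ≠ j → ∀ u v, (C i).Uses u v → ¬ (C j).Uses u v) ∧ k * (k + 2) ≤ 4 * N := by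
  classical
  have := Fintype.ofFinite V
  have ho : ∀ v, #{u | A v u} = k := by
    intro v
    rw [← hout v, Nat.card_eq_fintype_card, Fintype.card_subtype]
  have hi : ∀ v, #{u | A u v} = k := by
    intro v
    rw [← hin v, Nat.card_eq_fintype_card, Fintype.card_subtype]
  obtain ⟨N, C, hC, hN⟩ := greedy (Fintype.card V * k) A hloop (fun v => by rw [ho, hi])
    (by rw [sum_congr rfl fun v _ => ho v, sum_const, card_univ, smul_eq_mul])
  refine ⟨N, C, hC, ?_⟩
  have hn : 0 < Fintype.card V := Fintype.card_pos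
  set n : ℕ := Fintype.card V
  have h1 : n ^ 2 * (k * (k + 2)) ≤ n ^ 2 * (4 * N) := by
    calc n ^ 2 * (k * (k + 2)) = n * k * (n * k + 2 * n) := by ring
      _ ≤ 4 * n ^ 2 * N := hN
      _ = n ^ 2 * (4 * N) := by ring
  exact Nat.le_of_mul_le_mul_left h1 (by positivity)

end Pool.Agent.Results.MP_2634a8_co.HalfPacking
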