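import Mathlib

set_option autoImplicit false
set_option linter.unusedSectionVars false
open Finset

namespace Pool.Agent.Results.MP_2634a8_co.NormalCayley

variable {V : Type} [Fintype V] [DecidableEq V]

/-- out-neighbours -/
def outN (E : Finset (V × V)) (v : V) : Finset V := univ.filter fun y => (v, y) ∈ E
/-- in-neighbours -/
def inN (E : Finset (V × V)) (v : V) : Finset V := univ.filter fun x => (x, v) ∈ E

theorem mem_outN {E : Finset (V × V)} {v y : V} : y ∈ outN E v ↔ (v, y) ∈ E := by simp [outN]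
theorem mem_inN {E : Finset (V × V)} {v x : V} : x ∈ inN E v ↔ (x, v) ∈ E := by simp [inN]

/-- balanced set of arcs -/
def Bal (A : Finset (V × V)) : Prop := ∀ f : V → ℤ, ∑ a ∈ A, (f a.1 - f a.2) = 0

/-- no loops -/
def Loopless (A : Finset (V × V)) : Prop := ∀ a ∈ A, a.1 ≠ a.2

/-- `c` pairwise disjoint nonempty balanced subsets -/
def Pack (E : Finset (V × V)) (c : ℕ) : Prop :=
  ∃ (ι : Type) (_ : Fintype ι) (P : ι → Finset (V × V)), c ≤ Fintype.card ι ∧
    (∀ i, (P i).Nonempty ∧ P i ⊆ E ∧ Bal (P i)) ∧ ∀ i j, i ≠ j → Disjoint (P i) (P j)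

theorem card_outN (E : Finset (V × V)) (v : V) : (outN E v).card = (E.filter fun a => a.1 = v).card := by
  refine Finset.card_bij (fun y _ => (v, y)) ?_ ?_ ?_
  · intro y hy; simpa using mem_outN.1 hy
  · intro a _ b _ h; simpa using h
  · rintro ⟨a, b⟩ h
    simp only [mem_filter] at h
    obtain ⟨h1, rfl⟩ := h
    exact ⟨b, mem_outN.2 h1, rfl⟩

theorem card_inN (E : Finset (V × V)) (v : V) : (inN E v).card = (E.filter fun a => a.2 = v).card := by
  refine Finset.card_bij (fun y _ => (y, v)) ?_ ?_ ?_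
  · intro y hy; simpa using mem_inN.1 hy
  · intro a _ b _ h; simpa using h
  · rintro ⟨a, b⟩ h
    simp only [mem_filter] at h
    obtain ⟨h1, rfl⟩ := h
    exact ⟨a, mem_inN.2 h1, rfl⟩

theorem bal_iff (E : Finset (V × V)) : Bal E ↔ ∀ v, (inN E v).card = (outN E v).card := by
  have key : ∀ f : V → ℤ, ∑ a ∈ E, (f a.1 - f a.2) =
      ∑ v, f v * ((outN E v).card - (inN E v).card : ℤ) := by
    intro f
    have h1 : ∑ a ∈ E, f a.1 = ∑ v, f v * ((outN E v).card : ℤ) := by
      rw [← Finset.sum_fiberwise_of_maps_to (s := E) (t := univ) (g := fun a => a.1) (fun _ _ => mem_univ _)]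
      refine Finset.sum_congr rfl fun v _ => ?_
      rw [card_outN, Finset.sum_congr rfl (g := fun _ => f v) (fun a ha => by rw [(mem_filter.1 ha).2])]
      simp [mul_comm]
    have h2 : ∑ a ∈ E, f a.2 = ∑ v, f v * ((inN E v).card : ℤ) := by
      rw [← Finset.sum_fiberwise_of_maps_to (s := E) (t := univ) (g := fun a => a.2) (fun _ _ => mem_univ _)]
      refine Finset.sum_congr rfl fun v _ => ?_
      rw [card_inN, Finset.sum_congr rfl (g := fun _ => f v) (fun a ha => by rw [(mem_filter.1 ha).2])]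
      simp [mul_comm]
    rw [Finset.sum_sub_distrib, h1, h2, ← Finset.sum_sub_distrib]
    exact Finset.sum_congr rfl fun v _ => by ring
  constructor
  · intro h v
    have h0 := (key (fun w => if w = v then 1 else 0)).symm.trans
      (h (fun w => if w = v then 1 else 0))
    simp only [ite_mul, one_mul, zero_mul, Finset.sum_ite_eq', mem_univ, if_true] at h0
    omega
  · intro h f
    rw [key]
    refine Finset.sum_eq_zero fun v _ => ?_
    rw [h v]; simp

/-! ### a nonempty balanced set contains a directed cycle -/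

theorem exists_cycle {A : Finset (V × V)} (hne : A.Nonempty) (hl : Loopless A) (hb : Bal A) :
    ∃ σ : Equiv.Perm V, σ.IsCycle ∧ ∀ v, σ v ≠ v → (v, σ v) ∈ A := by
  classical
  have hnext : ∀ v, (inN A v).Nonempty → ∃ w, (v, w) ∈ A := by
    intro v hv
    have h1 : 0 < (outN A v).card := by
      rw [← (bal_iff A).1 hb v]; exact Finset.card_pos.2 hv
    obtain ⟨w, hw⟩ := Finset.card_pos.1 h1
    exact ⟨w, mem_outN.1 hw⟩
  obtain ⟨⟨a, b⟩, hab⟩ := hne
  have : Nonempty V := ⟨a⟩
  choose! nx hnx using hnext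
  have hb' : (inN A b).Nonempty := ⟨a, mem_inN.2 hab⟩
  have hiter : ∀ j, (inN A (nx^[j] b)).Nonempty := by
    intro j
    induction j with
    | zero => exact hb'
    | succ j ih =>
      rw [Function.iterate_succ_apply']
      exact ⟨_, mem_inN.2 (hnx _ ih)⟩
  obtain ⟨i, j, hij, heq⟩ : ∃ i j : ℕ, i < j ∧ nx^[i] b = nx^[j] b := by
    obtain ⟨i, j, hne, h⟩ := Finite.exists_ne_map_eq_of_infinite (fun n : ℕ => nx^[n] b)
    rcases lt_or_gt_of_ne hne with h1 | h1
    · exact ⟨i, j, h1, h⟩
    · exact ⟨j, i, h1, h.symm⟩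
  obtain ⟨p, hp⟩ : ∃ p, p = nx^[i] b := ⟨_, rfl⟩
  obtain ⟨t, ht0, ht⟩ : ∃ t, 0 < t ∧ nx^[t] p = p := by
    refine ⟨j - i, by omega, ?_⟩
    rw [hp, ← Function.iterate_add_apply, show j - i + i = j by omega, ← heq]
  have hpit : ∀ l, (inN A (nx^[l] p)).Nonempty := by
    intro l
    rw [hp, ← Function.iterate_add_apply]
    exact hiter _
  have harc : ∀ l, (nx^[l] p, nx^[l + 1] p) ∈ A := by
    intro l
    rw [Function.iterate_succ_apply']
    exact hnx _ (hpit l)
  set O : Set V := {u | ∃ l, nx^[l] p = u} with hO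
  have hOper : ∀ u ∈ O, nx^[t] u = u := by
    rintro u ⟨l, rfl⟩
    rw [← Function.iterate_add_apply, Nat.add_comm, Function.iterate_add_apply, ht]
  have hOnx : ∀ u ∈ O, nx u ∈ O := by
    rintro u ⟨l, rfl⟩
    exact ⟨l + 1, Function.iterate_succ_apply' _ _ _⟩
  have hinj : Function.Injective (fun u => if u ∈ O then nx u else u) := by
    intro u w huw
    simp only at huw
    by_cases hu : u ∈ O <;> by_cases hw : w ∈ O
    · simp only [hu, hw, if_true] at huw
      rw [← hOper u hu, ← hOper w hw]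
      obtain ⟨t', rfl⟩ : ∃ t', t = t' + 1 := ⟨t - 1, by omega⟩
      rw [Function.iterate_succ_apply, Function.iterate_succ_apply, huw]
    · simp only [hu, hw, if_true, if_false] at huw
      exact absurd (huw ▸ hOnx u hu) hw
    · simp only [hu, hw, if_true, if_false] at huw
      exact absurd (huw ▸ hOnx w hw) hu
    · simpa only [hu, hw, if_false] using huw
  obtain ⟨σ, hσ⟩ : ∃ σ : Equiv.Perm V, ∀ u, σ u = if u ∈ O then nx u else u :=
    ⟨Equiv.ofBijective _ (Finite.injective_iff_bijective.1 hinj), fun u => rfl⟩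
  have hmove : ∀ u ∈ O, (u, σ u) ∈ A := by
    rintro u ⟨l, rfl⟩
    rw [hσ, if_pos ⟨l, rfl⟩]
    have := harc l
    rwa [Function.iterate_succ_apply'] at this
  have hfix : ∀ u, σ u ≠ u → u ∈ O := by
    intro u hu
    by_contra hcon
    exact hu (by rw [hσ, if_neg hcon])
  have hpow : ∀ l : ℕ, (σ ^ l) p = nx^[l] p := by
    intro l
    induction l with
    | zero => rfl
    | succ l ih =>
      rw [pow_succ', Equiv.Perm.mul_apply, ih, hσ, if_pos ⟨l, rfl⟩, Function.iterate_succ_apply']
  refine ⟨σ, ⟨p, ?_, ?_⟩, ?_⟩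
  · intro h
    have := hmove p ⟨0, rfl⟩
    rw [h] at this
    exact hl _ this rfl
  · intro y hy
    obtain ⟨l, hl'⟩ := hfix y hy
    exact ⟨(l : ℤ), by rw [zpow_natCast, hpow, hl']⟩
  · intro u hu
    exact hmove u (hfix u hu)


theorem loopless_mono {F F' : Finset (V × V)} (h : F' ⊆ F) (hl : Loopless F) : Loopless F' :=
  fun a ha => hl a (h ha)

theorem cycles_of_pack {E : Finset (V × V)} (hl : Loopless E) {c : ℕ} (h : Pack E c) :
    ∃ C : Fin c → Equiv.Perm V,
      (∀ i, (C i).IsCycle ∧ ∀ v, C i v ≠ v → (v, C i v) ∈ E) ∧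
      ∀ i j v, i ≠ j → C i v ≠ v → C i v ≠ C j v := by
  obtain ⟨ι, hι, P, hc, hP, hd⟩ := h
  obtain ⟨g⟩ : Nonempty (Fin c ↪ ι) := Function.Embedding.nonempty_of_card_le (by simpa using hc)
  have hex : ∀ i, ∃ σ : Equiv.Perm V, σ.IsCycle ∧ ∀ v, σ v ≠ v → (v, σ v) ∈ P (g i) :=
    fun i => exists_cycle (hP (g i)).1 (loopless_mono (hP (g i)).2.1 hl) (hP (g i)).2.2
  choose C hC hC' using hex
  refine ⟨C, fun i => ⟨hC i, fun v hv => (hP (g i)).2.1 (hC' i v hv)⟩, ?_⟩
  intro i j v hij hv heq
  have h1 := hC' i v hv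
  have h2 := hC' j v (by rw [← heq]; exact hv)
  rw [← heq] at h2
  exact Finset.disjoint_left.1 (hd (g i) (g j) (fun h => hij (g.injective h))) h1 h2


/-! ### all-to-all routing from a colouring -/

section trail

variable (p : V → V) (u w : V)

/-- the vertices reached backwards from `w` do not meet `u` strictly before step `m` -/
def First (m : ℕ) : Prop := 0 < m ∧ p^[m] w = u ∧ ∀ i, 0 < i → i < m → p^[i] w ≠ u

/-- arcs of the trail -/
def trail (m : ℕ) : Finset (V × V) := (range m).image fun i => (p^[i + 1] w, p^[i] w)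

end trail

/-- hypotheses on the predecessor map of one colour -/
structure Pred (p : V → V) (K : Finset V) (u : V) : Prop where
  inj : ∀ y y', p y = p y' → y = y' ∨ p y = u
  back : ∀ y, p y ∈ K → p y = u

theorem cross {p : V → V} {K : Finset V} {u w w' : V} (hp : Pred p K u) (hw : w ∈ K) (hw' : w' ∈ K)
    {m m' : ℕ} (hm : ∀ i, 0 < i → i < m → p^[i] w ≠ u) (hm' : ∀ i, 0 < i → i < m' → p^[i] w' ≠ u) :
    ∀ i j, i < m → j < m' → p^[i] w = p^[j] w' → w = w' ∧ i = j := by
  intro i
  induction i with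
  | zero =>
    intro j _ hj h
    rcases j with _ | j
    · exact ⟨h, rfl⟩
    · exfalso
      have h1 : p (p^[j] w') ∈ K := by
        rw [← Function.iterate_succ_apply' p j w', ← h]; exact hw
      have h2 := hp.back _ h1
      rw [← Function.iterate_succ_apply' p j w'] at h2
      exact hm' (j + 1) (Nat.succ_pos _) hj h2
  | succ i ih =>
    intro j hi hj h
    rcases j with _ | j
    · exfalso
      have h1 : p (p^[i] w) ∈ K := by
        rw [← Function.iterate_succ_apply' p i w, h]; exact hw'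
      have h2 := hp.back _ h1
      rw [← Function.iterate_succ_apply' p i w] at h2
      exact hm (i + 1) (Nat.succ_pos _) hi h2
    · rw [Function.iterate_succ_apply', Function.iterate_succ_apply'] at h
      rcases hp.inj _ _ h with h1 | h1
      · obtain ⟨h2, h3⟩ := ih j (by omega) (by omega) h1
        exact ⟨h2, by omega⟩
      · exfalso
        rw [← Function.iterate_succ_apply' p i w] at h1
        exact hm (i + 1) (Nat.succ_pos _) hi h1

theorem exists_first {p : V → V} {K : Finset V} {u w : V} (hp : Pred p K u) (hw : w ∈ K) :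
    ∃ m, First p u w m := by
  classical
  have hex : ∃ m, 0 < m ∧ p^[m] w = u := by
    by_contra hcon
    push Not at hcon
    obtain ⟨i, j, hne, h⟩ := Finite.exists_ne_map_eq_of_infinite (fun n : ℕ => p^[n] w)
    have := cross (m := i + j + 1) (m' := i + j + 1) hp hw hw (fun i h _ => hcon i h)
      (fun i h _ => hcon i h) i j (by omega) (by omega) h
    exact hne this.2
  refine ⟨Nat.find hex, (Nat.find_spec hex).1, (Nat.find_spec hex).2, ?_⟩
  intro i h0 hi h
  exact Nat.find_min hex hi ⟨h0, h⟩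

theorem trail_sum {p : V → V} {K : Finset V} {u w : V} (hp : Pred p K u) (hw : w ∈ K) {m : ℕ}
    (hm : First p u w m) (f : V → ℤ) :
    ∑ a ∈ trail p w m, (f a.1 - f a.2) = f u - f w := by
  unfold trail
  rw [Finset.sum_image]
  · rw [Finset.sum_range_sub (fun i => f (p^[i] w)), hm.2.1]
    rfl
  · intro i hi j hj h
    have h1 : p^[i] w = p^[j] w := congrArg Prod.snd h
    exact (cross hp hw hw hm.2.2 hm.2.2 i j (by simpa using hi) (by simpa using hj) h1).2

/-- colouring data: stars at `K` are monochromatic, all other in- and out-stars are rainbow -/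
structure Col (E : Finset (V × V)) (K : Finset V) (c : V × V → V) : Prop where
  mem : ∀ a ∈ E, c a ∈ K
  mono : ∀ a ∈ E, a.1 ∈ K → c a = a.1
  out : ∀ v ∉ K, ∀ y y', (v, y) ∈ E → (v, y') ∈ E → c (v, y) = c (v, y') → y = y'
  ex : ∀ u ∈ K, ∀ y, ∃ v, (v, y) ∈ E ∧ c (v, y) = u

theorem pack_of_col {E : Finset (V × V)} {K : Finset V} {c : V × V → V} (h : Col E K c) :
    Pack E ((K.card + 1).choose 2) := by
  classical
  have hex : ∀ u : {u // u ∈ K}, ∃ p : V → V, ∀ y, (p y, y) ∈ E ∧ c (p y, y) = u.1 := by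
    intro u
    choose p hp using h.ex u.1 u.2
    exact ⟨p, hp⟩
  choose p hp using hex
  have hpred : ∀ u : {u // u ∈ K}, Pred (p u) K u.1 := by
    intro u
    have hback : ∀ y, p u y ∈ K → p u y = u.1 := by
      intro y hy
      have h1 := h.mono _ (hp u y).1 hy
      rw [(hp u y).2] at h1
      exact h1.symm
    refine ⟨?_, hback⟩
    intro y y' hyy
    by_cases hK : p u y ∈ K
    · exact Or.inr (hback y hK)
    · left
      have h1 := (hp u y')
      rw [← hyy] at h1
      exact h.out _ hK y y' (hp u y).1 h1.1 (by rw [(hp u y).2, h1.2])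
  have hfirst : ∀ (u w : {u // u ∈ K}), ∃ m, First (p u) u.1 w.1 m :=
    fun u w => exists_first (hpred u) w.2
  choose m hm using hfirst
  let T : {u // u ∈ K} → {u // u ∈ K} → Finset (V × V) := fun u w => trail (p u) w.1 (m u w)
  have hTsub : ∀ u w, T u w ⊆ E := by
    intro u w a ha
    obtain ⟨i, -, rfl⟩ := mem_image.1 ha
    rw [Function.iterate_succ_apply']
    exact (hp u _).1
  have hTcol : ∀ u w, ∀ a ∈ T u w, c a = u.1 := by
    intro u w a ha
    obtain ⟨i, -, rfl⟩ := mem_image.1 ha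
    rw [Function.iterate_succ_apply']
    exact (hp u _).2
  have hTne : ∀ u w, (T u w).Nonempty := by
    intro u w
    exact (Finset.nonempty_range_iff.2 (hm u w).1.ne').image _
  have hTdisj : ∀ u w u' w', (u, w) ≠ (u', w') → Disjoint (T u w) (T u' w') := by
    intro u w u' w' hne
    rw [Finset.disjoint_left]
    intro a ha ha'
    have hu : u = u' := by
      apply Subtype.ext
      rw [← hTcol u w a ha, hTcol u' w' a ha']
    subst hu
    obtain ⟨i, hi, rfl⟩ := mem_image.1 ha
    obtain ⟨j, hj, hij⟩ := mem_image.1 ha'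
    have h1 : (p u)^[i] w.1 = (p u)^[j] w'.1 := (congrArg Prod.snd hij).symm
    have h2 := (cross (hpred u) w.2 w'.2 (hm u w).2.2 (hm u w').2.2 i j (mem_range.1 hi)
      (mem_range.1 hj) h1).1
    exact hne (by rw [Subtype.ext h2])
  have hTsum : ∀ u w (f : V → ℤ), ∑ a ∈ T u w, (f a.1 - f a.2) = f u.1 - f w.1 :=
    fun u w f => trail_sum (hpred u) w.2 (hm u w) f
  refine ⟨Sym2 {u // u ∈ K}, inferInstance,
    Sym2.lift ⟨fun u w => T u w ∪ T w u, fun u w => Finset.union_comm _ _⟩, ?_, ?_, ?_⟩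
  · rw [Sym2.card, Fintype.card_coe]
  · intro z
    induction z using Sym2.ind with
    | _ u w =>
      simp only [Sym2.lift_mk]
      refine ⟨(hTne u w).mono Finset.subset_union_left,
        Finset.union_subset (hTsub u w) (hTsub w u), ?_⟩
      intro f
      by_cases huw : u = w
      · subst huw
        rw [Finset.union_self, hTsum]; ring
      · rw [Finset.sum_union (hTdisj u w w u (fun h => huw (congrArg Prod.fst h))), hTsum, hTsum]
        ring
  · intro z z'
    induction z using Sym2.ind with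
    | _ u w =>
      induction z' using Sym2.ind with
      | _ u' w' =>
        intro hne
        simp only [Sym2.lift_mk]
        have hne1 : ¬ (u = u' ∧ w = w') := fun h => hne (by rw [h.1, h.2])
        have hne2 : ¬ (u = w' ∧ w = u') := fun h => hne (by rw [h.1, h.2, Sym2.eq_swap])
        rw [Finset.disjoint_union_left, Finset.disjoint_union_right, Finset.disjoint_union_right]
        refine ⟨⟨hTdisj _ _ _ _ ?_, hTdisj _ _ _ _ ?_⟩, ⟨hTdisj _ _ _ _ ?_, hTdisj _ _ _ _ ?_⟩⟩
        · rintro h; simp only [Prod.mk.injEq] at h; exact hne1 h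
        · rintro h; simp only [Prod.mk.injEq] at h; exact hne2 h
        · rintro h; simp only [Prod.mk.injEq] at h; exact hne2 ⟨h.2, h.1⟩
        · rintro h; simp only [Prod.mk.injEq] at h; exact hne1 ⟨h.2, h.1⟩

theorem result (Γ : Type) [Group Γ] [Finite Γ] (S : Finset Γ) (h1 : (1 : Γ) ∉ S)
    (hS : ∀ s ∈ S, ∀ t ∈ S, s * t * s⁻¹ ∈ S) :
    ∃ C : Fin ((S.card + 1).choose 2) → Equiv.Perm Γ,
      (∀ i, (C i).IsCycle ∧ ∀ v, C i v ≠ v → v⁻¹ * C i v ∈ S) ∧
      ∀ i j v, i ≠ j → C i v ≠ v → C i v ≠ C j v := by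
  classical
  obtain ⟨_⟩ := nonempty_fintype Γ
  set E : Finset (Γ × Γ) := univ.filter fun a => a.1⁻¹ * a.2 ∈ S with hE
  have hmem : ∀ a b, (a, b) ∈ E ↔ a⁻¹ * b ∈ S := fun a b => by simp [hE]
  have hl : Loopless E := by
    rintro ⟨a, b⟩ hab h
    simp only at h
    subst h
    have := (hmem _ _).1 hab
    simp [h1] at this
  have hsurj : ∀ s ∈ S, ∀ t ∈ S, s⁻¹ * t * s ∈ S := by
    intro s hs t ht
    obtain ⟨r, hr, h⟩ := Finset.surj_on_of_inj_on_of_card_le (s := S) (t := S)
      (fun r _ => s * r * s⁻¹) (fun r hr => hS s hs r hr) (fun a b _ _ h => by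
        simpa using h) le_rfl t ht
    rw [h]
    simpa [mul_assoc] using hr
  have hcol : Col E S (fun a => if a.1 ∈ S then a.1 else a.1⁻¹ * a.2) := by
    refine ⟨?_, ?_, ?_, ?_⟩
    · rintro ⟨a, b⟩ hab
      simp only
      split_ifs with h
      · exact h
      · exact (hmem _ _).1 hab
    · rintro ⟨a, b⟩ hab h
      simp only at h ⊢
      rw [if_pos h]
    · intro v hv y y' _ _ h
      simp only [hv, if_false] at h
      simpa using h
    · intro u hu y
      by_cases hy : u⁻¹ * y ∈ S
      · exact ⟨u, (hmem _ _).2 hy, by simp [hu]⟩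
      · refine ⟨y * u⁻¹, (hmem _ _).2 (by simpa using hu), ?_⟩
        have hn : y * u⁻¹ ∉ S := by
          intro h
          apply hy
          have := hsurj u hu _ h
          simpa [mul_assoc] using this
        simp only [hn, if_false]
        simp
  obtain ⟨C, h1, h2⟩ := cycles_of_pack hl (pack_of_col hcol)
  exact ⟨C, fun i => ⟨(h1 i).1, fun v hv => (hmem _ _).1 ((h1 i).2 v hv)⟩, h2⟩

end Pool.Agent.Results.MP_2634a8_co.NormalCayley
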